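import Pool.Agent.helper65.D3.Start

/-!
# MP_c8d30a, exponent 12, Part I: the assembly
-/

set_option autoImplicit false

namespace D3

open NTH NP Equiv NTS
open Pool.Agent.helper32.RH (RTs)

/-- three M-particles in a row. -/
def row_stmt (K k : ℕ) : Prop := ∀ (Ω : Type) [DecidableEq Ω] (p r : Ω → Ω) (f : Ω) (s : St Ω) (a b c d g h : Ω),
  Tri p f s a b c d g h → Can p (NA.mu p s) r → NA.mu p s b = p d → NA.mu p s h = p (NA.mu p s d) → (a ∈ s.1 ↔ g ∈ s.1) →
  ¬ (a ∈ s.1 ↔ c ∈ s.1) → Goal p r f s K (k * ((s.1 ++ s.2).length + 1))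

/-- a contact which can be opened. -/
def star_stmt (K k : ℕ) : Prop := ∀ (Ω : Type) [DecidableEq Ω] (p r : Ω → Ω) (f : Ω) (s : St Ω),
  GP p f s → Star p f s → Can p (NA.mu p s) r → Goal p r f s K (k * ((s.1 ++ s.2).length + 1))

variable {Ω : Type} [DecidableEq Ω] {p r : Ω → Ω} {s s' : St Ω} {f : Ω}

/-- two coloured letters. -/
theorem part2 {K k : ℕ} (hK : 3 ≤ K) (hst : star_stmt K k) (hg : GP p f s) (hD : D2 p s = 4) (hC : Can p (NA.mu p s) r) :
    Goal p r f s K ((k + 6) * ((s.1 ++ s.2).length + 1) ^ 2) := by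
  obtain ⟨s', r1, hg', hp, hm, h1⟩ := D2proc hg hD
  have hC' : Can p (NA.mu p s') r := by rw [hm]; exact hC
  rcases h1 with ⟨h1, h2⟩ | h1
  · have h3 : Goal p r f s' K 0 := Goal.here hg' (by rw [h1]; omega) (Low.up hK (near_low hg' h1 h2))
    refine (Goal.pre r1 hp h3).mono (le_refl _) ?_
    rw [add_zero]
    exact Nat.mul_le_mul_right _ (by omega)
  · have h3 := hst Ω p r f s' hg' h1 hC'
    rw [hp.length_eq] at h3
    refine (Goal.pre r1 hp h3).mono (le_refl _) ?_
    have h4 : (s.1 ++ s.2).length + 1 ≤ ((s.1 ++ s.2).length + 1) ^ 2 := by nlinarith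
    nlinarith

/-- three coloured letters. -/
theorem part3 {K k : ℕ} (hK : 25 ≤ K) (hR : R2stuck_stmt 20 6) (hst : star_stmt K k) (hg : GP p f s) (hD : D2 p s = 6)
    (hC : Can p (NA.mu p s) r) : Goal p r f s K ((k + 60) * ((s.1 ++ s.2).length + 1) ^ 2) := by
  obtain ⟨a0, b0, c, d, g, h, T0, hs⟩ := tri_of hg hD
  obtain ⟨n, s', a, b, hab, r1, hp, hm, T, _, hS, _⟩ := T0.fw hs hC
  have hC' : Can p (NA.mu p s') r := by rw [hm]; exact hC
  rw [← hm] at hS
  have hw := T.wf
  have hsq : (s.1 ++ s.2).length + 1 ≤ ((s.1 ++ s.2).length + 1) ^ 2 := by nlinarith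
  -- one cluster
  have self1 : Cv1 p (NA.mu p s') r f 2 a b → Goal p r f s K ((k + 60) * ((s.1 ++ s.2).length + 1) ^ 2) := by
    intro h1
    have h2 := self hR 2 Ω p r f s' a b c d g h T hC' h1
    rw [hp.length_eq] at h2
    refine (Goal.pre r1 hp h2).mono (by omega) ?_
    nlinarith
  by_cases hN : Nr p (NA.mu p s') r 2 a b
  · exact self1 ⟨b, cov_new hN, Wr_base (by simp)⟩
  have hS := hS.resolve_right hN
  by_cases hown : a = b
  · exact self1 ⟨b, by rw [hown]; exact Wr_base (by simp), Wr_base (by simp)⟩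
  by_cases hwf : b = f
  · refine self1 ⟨a, Wr_base (by simp), ?_⟩
    have h9 : p (p f) ∈ Wr p (NA.mu p s') r 1 [p f, a] := Wr_p (Wr_base (K := 0) (by simp))
    rw [hw.inv] at h9
    rw [hwf]
    exact Wr_up (by omega) h9
  by_cases hwf' : b = p f
  · refine self1 ⟨a, Wr_base (by simp), ?_⟩
    rw [hwf']
    exact Wr_base (by simp)
  -- after a drop
  have drop : ∀ {s'' : St Ω}, RTs p 6 s' s'' → (s''.1 ++ s''.2).Perm (s'.1 ++ s'.2) → NA.mu p s'' = NA.mu p s' → GP p f s'' →
      D2 p s'' = 4 → Goal p r f s K ((k + 60) * ((s.1 ++ s.2).length + 1) ^ 2) := by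
    intro s'' r2 hp2 hm2 hg2 hd2
    have h2 := part2 (by omega) hst hg2 hd2 (by rw [hm2]; exact hC')
    have h3 := Goal.pre r1 hp (Goal.pre r2 hp2 h2)
    refine h3.mono (le_refl _) ?_
    rw [hp2.length_eq, hp.length_eq]
    nlinarith
  have hX : MD p s' a → (a = d ∨ a = NA.mu p s' d) ∨ (a = h ∨ a = NA.mu p s' h) := by
    intro h5
    rcases T.mda h5 with h6 | h6 | h6
    · exact absurd h6 hown
    · exact Or.inl h6
    · exact Or.inr h6
  have hY : Cd p s' b → (b = c ∨ b = p c) ∨ (b = g ∨ b = p g) := by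
    intro h5
    rcases T.cdb h5 with h6 | h6 | h6
    · exact absurd h6 hown
    · exact Or.inl h6
    · exact Or.inr h6
  -- two contacts with one letter
  have both : ∀ {c d g h : Ω}, Tri p f s' a b c d g h → (a = d ∨ a = NA.mu p s' d) → (b = c ∨ b = p c) →
      Goal p r f s K ((k + 60) * ((s.1 ++ s.2).length + 1) ^ 2) := by
    intro c d g h T h1 h2
    have h3 : Cv2 p (NA.mu p s') r f 1 a b c d := by
      refine ⟨c, d, ?_, ?_, Wr_base (by simp), Wr_base (by simp)⟩
      · rcases h1 with h1 | h1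
        · rw [h1]; exact Wr_base (by simp)
        · rw [h1]; exact Wr_q (Wr_base (K := 0) (by simp))
      · rcases h2 with h2 | h2
        · rw [h2]; exact Wr_base (by simp)
        · rw [h2]; exact Wr_p (Wr_base (K := 0) (by simp))
    have h4 := R2 hR T hC' h3
    rw [hp.length_eq] at h4
    refine (Goal.pre r1 hp h4).mono (by omega) ?_
    nlinarith
  by_cases hmd : MD p s' a
  · by_cases hcd : Cd p s' b
    · rcases hX hmd with h1 | h1
      · rcases hY hcd with h2 | h2
        · exact both T h1 h2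
        · exact absurd ⟨T.sX h1, T.sw23.sY h2⟩ T.nas
      · rcases hY hcd with h2 | h2
        · exact absurd ⟨T.sY h2, T.sw23.sX h1⟩ T.nas
        · exact both T.sw23 h1 h2
    · rcases hX hmd with h1 | h1
      · obtain ⟨s'', r3, hp3, hm3, D⟩ := hitX T h1 hcd hwf hwf'
        exact drop r3 hp3 hm3 D.gp D.d2
      · obtain ⟨s'', r3, hp3, hm3, D⟩ := hitX T.sw23 h1 hcd hwf hwf'
        exact drop r3 hp3 hm3 D.gp D.d2
  · have hcd : Cd p s' b := by
      rcases hS with h5 | h5 | h5 | h5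
      · exact absurd ((md_iff hw).2 h5) hmd
      · exact h5
      · exact absurd h5 hwf
      · exact absurd h5 hwf'
    rcases hY hcd with h1 | h1
    · obtain ⟨s'', r3, hp3, hm3, D⟩ := hitY T h1 hmd
      exact drop r3 hp3 hm3 D.gp D.d2
    · obtain ⟨s'', r3, hp3, hm3, D⟩ := hitY T.sw23 h1 hmd
      exact drop r3 hp3 hm3 D.gp D.d2

/-- **PART I**, from the lemma of the stuck letters and the theorem on the open contact. -/
theorem partI_of {K k : ℕ} (hK : 25 ≤ K) (hR : R2stuck_stmt 20 6) (hst : star_stmt K k) : PartI K (k + 60) := by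
  intro Ω _ p r f s hg hD hC
  rcases d2_cases hg with h1 | h1
  · have h2 := part2 (by omega) hst hg h1 hC
    exact h2.mono (le_refl _) (Nat.mul_le_mul_right _ (by omega))
  · exact part3 hK hR hst hg (by omega) hC

end D3
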