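import Pool.Agent.helper65.D3.Walk2

/-!
# MP_c8d30a, exponent 12, Part I: walks up to the canonical token
-/

set_option autoImplicit false

namespace D3

open NTH NP Equiv NTS
open Pool.Agent.helper32.RH (RTs)

/-! ### two involutions without fixed points -/

section inv
variable {α : Type} {p q : α → α}

/-- one double step. -/
def FF (p q : α → α) (z : α) : α := p (q z)

/-- one double step backwards. -/
def GG (p q : α → α) (z : α) : α := q (p z)

theorem p_F (hp : ∀ z, p (p z) = z) (k : ℕ) (z : α) : p ((FF p q)^[k] z) = (GG p q)^[k] (p z) := by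
  induction k generalizing z with
  | zero => rfl
  | succ k ih =>
    rw [Function.iterate_succ_apply, Function.iterate_succ_apply, ih]
    congr 1
    simp only [FF, GG, hp]

theorem p_G (hp : ∀ z, p (p z) = z) (k : ℕ) (z : α) : p ((GG p q)^[k] z) = (FF p q)^[k] (p z) := by
  induction k generalizing z with
  | zero => rfl
  | succ k ih =>
    rw [Function.iterate_succ_apply, Function.iterate_succ_apply, ih]
    congr 1

theorem q_F (k : ℕ) (z : α) : q ((FF p q)^[k] z) = (GG p q)^[k] (q z) := by
  induction k generalizing z with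
  | zero => rfl
  | succ k ih =>
    rw [Function.iterate_succ_apply, Function.iterate_succ_apply, ih]
    congr 1

theorem G_F (hp : ∀ z, p (p z) = z) (hq : ∀ z, q (q z) = z) (k : ℕ) (z : α) : (GG p q)^[k] ((FF p q)^[k] z) = z := by
  induction k generalizing z with
  | zero => rfl
  | succ k ih =>
    rw [Function.iterate_succ_apply', Function.iterate_succ_apply, ih]
    simp only [FF, GG, hp, hq]

theorem F_G (hp : ∀ z, p (p z) = z) (hq : ∀ z, q (q z) = z) (k : ℕ) (z : α) : (FF p q)^[k] ((GG p q)^[k] z) = z := by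
  induction k generalizing z with
  | zero => rfl
  | succ k ih =>
    rw [Function.iterate_succ_apply', Function.iterate_succ_apply, ih]
    simp only [FF, GG, hp, hq]

/-- a walk does not turn round. -/
theorem F_ne_p (hp : ∀ z, p (p z) = z) (hq : ∀ z, q (q z) = z) (hpn : ∀ z, p z ≠ z) (hqn : ∀ z, q z ≠ z) (k : ℕ) (z : α) :
    (FF p q)^[k] z ≠ p z := by
  intro h
  rcases Nat.even_or_odd' k with ⟨j, rfl | rfl⟩
  · have h1 : (FF p q)^[j] z = p ((FF p q)^[j] z) := by
      have h2 : (GG p q)^[j] ((FF p q)^[j] ((FF p q)^[j] z)) = (GG p q)^[j] (p z) := by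
        rw [← Function.iterate_add_apply, ← two_mul, h]
      rw [G_F hp hq] at h2
      rw [h2, ← p_F hp, hp]
      have h3 := h2
      rw [← p_F hp] at h3
      rw [← h3]
    exact hpn _ h1.symm
  · have h2 : (GG p q)^[j] ((FF p q)^[j] ((FF p q)^[j + 1] z)) = (GG p q)^[j] (p z) := by
      have e : j + (j + 1) = 2 * j + 1 := by ring
      rw [← Function.iterate_add_apply, e, h]
    rw [G_F hp hq, ← p_F hp, Function.iterate_succ_apply'] at h2
    have h3 : p (q ((FF p q)^[j] z)) = p ((FF p q)^[j] z) := h2
    have h4 : q ((FF p q)^[j] z) = (FF p q)^[j] z := by rw [← hp (q _), h3, hp]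
    exact hqn _ h4

theorem G_ne_p (hp : ∀ z, p (p z) = z) (hq : ∀ z, q (q z) = z) (hpn : ∀ z, p z ≠ z) (hqn : ∀ z, q z ≠ z) (k : ℕ) (z : α) :
    (GG p q)^[k] z ≠ p z := by
  intro h
  have h1 : (FF p q)^[k] (p z) = p (p z) := by
    rw [← h, F_G hp hq, h, hp]
  exact F_ne_p hp hq hpn hqn k (p z) h1

theorem F_inj (hp : ∀ z, p (p z) = z) (hq : ∀ z, q (q z) = z) (k : ℕ) : Function.Injective (FF p q)^[k] := by
  intro x y h
  rw [← G_F hp hq k x, h, G_F hp hq]

theorem wk_even (k : ℕ) (a b : α) : wk p q (2 * k) (a, b) = ((FF p q)^[k] a, (GG p q)^[k] b) := by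
  induction k generalizing a b with
  | zero => rfl
  | succ k ih =>
    have e : 2 * (k + 1) = (2 * k + 1) + 1 := by ring
    rw [e]
    show wk p q (2 * k) (p (q a), q (p b)) = _
    rw [ih, Function.iterate_succ_apply, Function.iterate_succ_apply]
    rfl

theorem wk_odd (k : ℕ) (a b : α) : wk p q (2 * k + 1) (a, b) = ((FF p q)^[k] (p b), (GG p q)^[k] (q a)) := by
  show wk p q (2 * k) (p b, q a) = _
  rw [wk_even]

theorem r_F {r : α → α} (hC : Can p q r) (k : ℕ) (z : α) : r ((FF p q)^[k] z) = r z := by
  induction k generalizing z with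
  | zero => rfl
  | succ k ih =>
    rw [Function.iterate_succ_apply, ih]
    show r (p (q z)) = r z
    rw [hC.hp, hC.hq]

theorem r_G {r : α → α} (hC : Can p q r) (k : ℕ) (z : α) : r ((GG p q)^[k] z) = r z := by
  induction k generalizing z with
  | zero => rfl
  | succ k ih =>
    rw [Function.iterate_succ_apply, ih]
    show r (q (p z)) = r z
    rw [hC.hq, hC.hp]

theorem r_idem {r : α → α} (hC : Can p q r) (z : α) : r (r z) = r z := by
  have key : ∀ x y, Relation.ReflTransGen (fun a b => b = p a ∨ b = q a) x y → r y = r x := by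
    intro x y h
    induction h with
    | refl => rfl
    | tail _ h ih =>
      rcases h with rfl | rfl
      · rw [hC.hp, ih]
      · rw [hC.hq, ih]
  exact key _ _ (hC.conn z)

/-- the canonical token is reached by double steps. -/
theorem reach_r {r : α → α} (hp : ∀ z, p (p z) = z) (hq : ∀ z, q (q z) = z) (hC : Can p q r) {a : α} {L : ℕ} (hL : 0 < L) (ha : (FF p q)^[L] a = a) :
    ∃ k < L, (FF p q)^[k] a = r a ∨ p ((FF p q)^[k] a) = r a := by
  have hmod : ∀ k, (FF p q)^[k] a = (FF p q)^[k % L] a := by
    intro k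
    have h1 : ∀ j, (FF p q)^[L * j] a = a := by
      intro j
      induction j with
      | zero => rfl
      | succ j ih =>
        rw [Nat.mul_succ, Function.iterate_add_apply, ha, ih]
    conv_lhs => rw [← Nat.mod_add_div k L]
    rw [Function.iterate_add_apply, h1]
  have key : ∀ y, Relation.ReflTransGen (fun a b => b = p a ∨ b = q a) a y → ∃ k, (FF p q)^[k] a = y ∨ p ((FF p q)^[k] a) = y := by
    intro y h
    induction h with
    | refl => exact ⟨0, Or.inl rfl⟩
    | tail _ h ih =>
      obtain ⟨k, hk⟩ := ih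
      rcases hk with hk | hk
      · rcases h with rfl | rfl
        · exact ⟨k, Or.inr (by rw [hk])⟩
        · refine ⟨k + 1, Or.inr ?_⟩
          rw [Function.iterate_succ_apply', hk]
          simp only [FF, hp]
      · rcases h with rfl | rfl
        · exact ⟨k, Or.inl (by rw [← hk, hp])⟩
        · refine ⟨k + (L - 1), Or.inl ?_⟩
          rw [← hk]
          have h1 : (FF p q)^[k] a = (FF p q)^[(k + (L - 1)) + 1] a := by
            have : (k + (L - 1)) + 1 = k + L := by omega
            rw [this, Function.iterate_add_apply, ha]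
          rw [h1, Function.iterate_succ_apply']
          simp only [FF, hp, hq]
  obtain ⟨k, hk⟩ := key _ (hC.conn a)
  refine ⟨k % L, Nat.mod_lt _ hL, ?_⟩
  rw [← hmod]
  exact hk

end inv

/-! ### the walk -/

variable {Ω : Type} [DecidableEq Ω] {p : Ω → Ω} {s s' : St Ω} {f : Ω}

theorem period (hw : WF p s) {a : Ω} (ha : a ∈ s.1 ∨ a ∈ s.2) :
    ∃ L, 0 < L ∧ L ≤ (s.1 ++ s.2).length ∧ (FF p (NA.mu p s))^[L] a = a := by
  classical
  have hm : ∀ k, (FF p (NA.mu p s))^[k] a ∈ s.1 ∨ (FF p (NA.mu p s))^[k] a ∈ s.2 := by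
    intro k
    induction k with
    | zero => exact ha
    | succ k ih =>
      rw [Function.iterate_succ_apply']
      exact cas hw (mu_mem hw ih)
  have hcard : (s.1 ++ s.2).toFinset.card < (Finset.range ((s.1 ++ s.2).length + 1)).card := by
    rw [Finset.card_range]
    exact Nat.lt_succ_of_le (List.toFinset_card_le _)
  obtain ⟨i, hi, j, hj, hij, he⟩ := Finset.exists_ne_map_eq_of_card_lt_of_maps_to hcard
    (f := fun k => (FF p (NA.mu p s))^[k] a) (fun k _ => by
      rw [Finset.mem_coe, List.mem_toFinset, List.mem_append]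
      exact hm k)
  rw [Finset.mem_range] at hi hj
  have key : ∀ i j : ℕ, i < j → j < (s.1 ++ s.2).length + 1 → (FF p (NA.mu p s))^[i] a = (FF p (NA.mu p s))^[j] a →
      ∃ L, 0 < L ∧ L ≤ (s.1 ++ s.2).length ∧ (FF p (NA.mu p s))^[L] a = a := by
    intro i j hij hj he
    refine ⟨j - i, by omega, by omega, ?_⟩
    apply F_inj hw.inv (NA.mu_mu hw.inv s) i
    rw [← Function.iterate_add_apply, he]
    congr 1
    omega
  rcases Nat.lt_or_gt_of_ne hij with h | h
  · exact key i j h hj he
  · exact key j i h hi he.symm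

/-- **the full walk**: up to a stop, or to the canonical token of a cycle with both defects of the letter. -/
theorem fwalk {r : Ω → Ω} {a b : Ω} (hg : GP p f s) (hc : Cp p s a b) (hf : Fr p s a) (hC : Can p (NA.mu p s) r) :
    ∃ n ≤ 2 * (s.1 ++ s.2).length, ∃ s', WR p f s a b n s' (wk p (NA.mu p s) n (a, b)).1 (wk p (NA.mu p s) n (a, b)).2 ∧
      (∀ k < n, NS p f s a b (wk p (NA.mu p s) k (a, b)).1 (wk p (NA.mu p s) k (a, b)).2) ∧
      (Stop p f s' (wk p (NA.mu p s) n (a, b)).1 (wk p (NA.mu p s) n (a, b)).2 ∨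
        Nr p (NA.mu p s) r 2 (wk p (NA.mu p s) n (a, b)).1 (wk p (NA.mu p s) n (a, b)).2) ∧
      ((wk p (NA.mu p s) n (a, b)).1 ∈ s'.1 ↔ (a ∈ s.1 ↔ Even n)) := by
  classical
  have hw := hg.wf
  have hp := hw.inv
  have hq := NA.mu_mu hw.inv s
  set q := NA.mu p s with hqd
  have ham := hc.1.mem
  have hex := period hw ham
  by_cases hr : r a = r b
  · obtain ⟨L, hL0, hLm, hL⟩ := hex
    obtain ⟨k, hk, hkr⟩ := reach_r hp hq hC hL0 hL
    obtain ⟨n, hn, s', W, h1, h2, h3⟩ := walk2 hg hc hf (2 * k)
    refine ⟨n, by omega, s', W, h1, ?_, h3⟩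
    rcases h2 with h2 | h2
    · right
      subst h2
      rw [wk_even]
      simp only
      have h4 : r ((GG p q)^[k] b) = r a := by rw [r_G hC, hr]
      rcases hkr with h5 | h5
      · rw [h5, ← h4]
        exact Nr.up (by omega) (Wr_r (Wr_base (List.mem_singleton_self _)) : _ ∈ Wr p q r 1 _)
      · have h6 : (FF p q)^[k] a = p (r ((GG p q)^[k] b)) := by rw [h4, ← h5, hp]
        rw [h6]
        exact Wr_p (Wr_r (Wr_base (List.mem_singleton_self _)))
    · exact Or.inl h2
  · obtain ⟨L, hL0, hLm, hL, hmin⟩ : ∃ L, 0 < L ∧ L ≤ (s.1 ++ s.2).length ∧ (FF p q)^[L] a = a ∧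
        ∀ j, 0 < j → j < L → (FF p q)^[j] a ≠ a := by
      have hex' : ∃ L, 0 < L ∧ (FF p q)^[L] a = a := by
        obtain ⟨L, h1, h2, h3⟩ := hex
        exact ⟨L, h1, h3⟩
      obtain ⟨L0, k1, k2, k3⟩ := hex
      refine ⟨Nat.find hex', (Nat.find_spec hex').1, (Nat.find_min' hex' ⟨k1, k3⟩).trans k2, (Nat.find_spec hex').2, ?_⟩
      intro j hj1 hj2 hj3
      exact Nat.find_min hex' hj2 ⟨hj1, hj3⟩
    obtain ⟨n, hn, s', W, h1, h2, h3⟩ := walk2 hg hc hf (2 * L)
    refine ⟨n, by omega, s', W, h1, ?_, h3⟩
    rcases h2 with h2 | h2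
    · exfalso
      subst h2
      -- no stop: the sides along the cycle
      have hz : ∀ j, (FF p q)^[j] a ∈ s.1 ∨ (FF p q)^[j] a ∈ s.2 := by
        intro j
        induction j with
        | zero => exact ham
        | succ k ih =>
          rw [Function.iterate_succ_apply']
          exact cas hw (mu_mem hw ih)
      have hmd : ∀ j < L, ¬ MD p s ((FF p q)^[j] a) := by
        intro j hj h4
        have h5 := (h1 (2 * j) (by omega)).md
        rw [← hqd, wk_even] at h5
        simp only at h5
        apply h5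
        refine ⟨h4, ?_, ?_⟩
        · intro e
          apply hr
          rw [← r_F hC j a, e]
        · intro e
          apply hr
          rw [← r_F hC j a, e, hC.hq]
      have hcd : ∀ j, j + 1 < L → ¬ Cd p s (q ((FF p q)^[j] a)) := by
        intro j hj h4
        have h5 := (h1 (2 * j + 1) (by omega)).cd
        rw [← hqd, wk_odd] at h5
        simp only at h5
        apply h5
        rw [← q_F]
        refine ⟨h4, ?_, ?_⟩
        · intro e
          have h6 : (FF p q)^[j + 1] a = p a := by
            rw [Function.iterate_succ_apply']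
            show p (q _) = _
            rw [e]
          exact F_ne_p hp hq hw.ne (mu_ne hw) _ _ h6
        · intro e
          have h6 : (FF p q)^[j + 1] a = a := by
            rw [Function.iterate_succ_apply']
            show p (q _) = _
            rw [e, hp]
          exact hmin (j + 1) (by omega) hj h6
      have hside : ∀ j < L, (FF p q)^[j] a ∈ s.1 ↔ a ∈ s.1 := by
        intro j
        induction j with
        | zero => intro _; exact Iff.rfl
        | succ j ih =>
          intro hj
          rw [← ih (by omega)]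
          have e1 := hmd j (by omega)
          have e2 := hcd j hj
          rw [md_iff' hw] at e1
          rw [cd_iff hw] at e2
          rw [Function.iterate_succ_apply']
          show p (q _) ∈ s.1 ↔ _
          have e3 := hz j
          have e4 := mu_mem hw e3
          rw [← hqd] at e1 e4
          (first | grind | tauto)
      have h4 := hside (L - 1) (by omega)
      have h5 := hmd (L - 1) (by omega)
      rw [md_iff' hw, ← hqd] at h5
      have h6 : q ((FF p q)^[L - 1] a) = p a := by
        have h7 : p (q ((FF p q)^[L - 1] a)) = a := by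
          have h8 : (FF p q)^[L - 1 + 1] a = a := by
            rw [Nat.sub_add_cancel hL0]
            exact hL
          rw [Function.iterate_succ_apply'] at h8
          exact h8
        calc q ((FF p q)^[L - 1] a) = p (p (q ((FF p q)^[L - 1] a))) := (hp _).symm
          _ = p a := by rw [h7]
      rw [h6] at h5
      have h7 := ((cd_iff hw).1 hc.1).2
      exact h5 ⟨hz _, h4.trans h7⟩
    · exact Or.inl h2

end D3
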