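import Pool.Agent.helper65.D3.Tri

/-!
# MP_c8d30a, exponent 12, Part I: covers of the defects, goals
-/

set_option autoImplicit false

namespace D3

open NTH NP Equiv NTS
open Pool.Agent.helper32.RH (RTs)

variable {Ω : Type} [DecidableEq Ω] {p q r : Ω → Ω} {s s' s'' : St Ω} {f : Ω}

theorem Wr_trans {K K' : ℕ} {l : List Ω} {x y : Ω} (h : x ∈ Wr p q r K [y]) (h' : y ∈ Wr p q r K' l) : x ∈ Wr p q r (K' + K) l := by
  apply Wr_add
  exact Wr_mono (le_refl _) (fun z hz => by rw [List.mem_singleton] at hz; exact hz ▸ h') h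

theorem Wr_up {K K' : ℕ} (hK : K ≤ K') {l : List Ω} {x : Ω} (hx : x ∈ Wr p q r K l) : x ∈ Wr p q r K' l :=
  Wr_mono hK (fun _ h => h) hx

/-- `Goal p r f s K N`: with `N` runs to a pair with few clusters. -/
def Goal (p r : Ω → Ω) (f : Ω) (s : St Ω) (K N : ℕ) : Prop :=
  ∃ s', RTs p N s s' ∧ GP p f s' ∧ D2 p s' ≤ 6 ∧ Low p r f K 3 s'

theorem Low.up {K K' : ℕ} (hK : K ≤ K') (h : Low p r f K 3 s) : Low p r f K' 3 s := by
  obtain ⟨l, h1, h2⟩ := h
  exact ⟨l, h1, fun z hz h3 => Wr_up hK (h2 z hz h3)⟩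

theorem Goal.mono {K K' N N' : ℕ} (hK : K ≤ K') (hN : N ≤ N') (h : Goal p r f s K N) : Goal p r f s K' N' := by
  obtain ⟨s', h1, h2, h3, h4⟩ := h
  exact ⟨s', h1.mono hN, h2, h3, Low.up hK h4⟩

theorem Goal.pre {K N N' : ℕ} (h : RTs p N s s') (hp : (s'.1 ++ s'.2).Perm (s.1 ++ s.2)) (h' : Goal p r f s' K N') :
    Goal p r f s K (N + N') := by
  obtain ⟨t, h1, h2, h3, h4⟩ := h'
  exact ⟨t, Pool.Agent.helper32.RH.RTs.trans h h1 hp, h2, h3, h4⟩

theorem Goal.here {K : ℕ} (hg : GP p f s) (hD : D2 p s ≤ 6) (hL : Low p r f K 3 s) : Goal p r f s K 0 :=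
  ⟨s, rts_refl hg, hg, hD, hL⟩

theorem low_of {K : ℕ} {l L : List Ω} (hw : WF p s) (hl : l.length ≤ 3) (hc : ∀ z, Cd p s z → z ∈ L ∨ p z ∈ L)
    (hm : ∀ z, MD p s z → z ∈ L ∨ NA.mu p s z ∈ L) (H : ∀ x ∈ L, x ∈ Wr p (NA.mu p s) r K (p f :: l)) : Low p r f (K + 1) 3 s := by
  refine ⟨l, hl, ?_⟩
  intro z hz hd
  rw [List.mem_append] at hz
  rcases hd with hd | hd
  · rcases hc z ((cd_iff hw).2 ⟨hz, hd⟩) with h | h
    · exact Wr_succ (H _ h)
    · have := Wr_p (H _ h)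
      rwa [hw.inv] at this
  · rcases hm z ((md_iff' hw).2 ⟨hz, hd⟩) with h | h
    · exact Wr_succ (H _ h)
    · have := Wr_q (H _ h)
      rwa [NA.mu_mu hw.inv] at this

theorem low_tri {a b c d g h : Ω} {K : ℕ} {l : List Ω} (T : Tri p f s a b c d g h) (hl : l.length ≤ 3)
    (H : ∀ x ∈ [a, b, c, d, g, h], x ∈ Wr p (NA.mu p s) r K (p f :: l)) : Low p r f (K + 1) 3 s := by
  have hw := T.wf
  refine low_of hw hl ?_ ?_ H
  · intro z hz
    simp only [List.mem_cons, List.not_mem_nil, or_false]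
    rcases (T.cd z).1 hz with h1 | h1 | h1 | h1 | h1 | h1 <;> subst h1 <;> simp [hw.inv]
  · intro z hz
    simp only [List.mem_cons, List.not_mem_nil, or_false]
    rcases (T.md z).1 hz with h1 | h1 | h1 | h1 | h1 | h1 <;> subst h1 <;> simp [NA.mu_mu hw.inv]

theorem low_duo {a b c d : Ω} {K : ℕ} {l : List Ω} (T : Duo p f s a b c d) (hl : l.length ≤ 3)
    (H : ∀ x ∈ [a, b, c, d], x ∈ Wr p (NA.mu p s) r K (p f :: l)) : Low p r f (K + 1) 3 s := by
  have hw := T.gp.wf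
  refine low_of hw hl ?_ ?_ H
  · intro z hz
    simp only [List.mem_cons, List.not_mem_nil, or_false]
    rcases (T.cd z).1 hz with h1 | h1 | h1 | h1 <;> subst h1 <;> simp [hw.inv]
  · intro z hz
    simp only [List.mem_cons, List.not_mem_nil, or_false]
    rcases (T.md z).1 hz with h1 | h1 | h1 | h1 <;> subst h1 <;> simp [NA.mu_mu hw.inv]

/-- a letter with one cluster. -/
def Cv1 (p q r : Ω → Ω) (f : Ω) (K : ℕ) (a b : Ω) : Prop :=
  ∃ x, a ∈ Wr p q r K [p f, x] ∧ b ∈ Wr p q r K [p f, x]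

/-- two letters with two clusters. -/
def Cv2 (p q r : Ω → Ω) (f : Ω) (K : ℕ) (a b c d : Ω) : Prop :=
  ∃ x y, a ∈ Wr p q r K [p f, x, y] ∧ b ∈ Wr p q r K [p f, x, y] ∧ c ∈ Wr p q r K [p f, x, y] ∧ d ∈ Wr p q r K [p f, x, y]

/-- two particles are near. -/
def Nr (p q r : Ω → Ω) (K : ℕ) (x y : Ω) : Prop := x ∈ Wr p q r K [y]

theorem Nr.refl {K : ℕ} (x : Ω) : Nr p q r K x x := Wr_base (List.mem_singleton_self x)

theorem Nr.cov {K K' : ℕ} {l : List Ω} {x y : Ω} (h : Nr p q r K x y) (h' : y ∈ Wr p q r K' l) : x ∈ Wr p q r (K' + K) l := Wr_trans h h'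

theorem Nr.trans {K K' : ℕ} {x y z : Ω} (h : Nr p q r K x y) (h' : Nr p q r K' y z) : Nr p q r (K' + K) x z := Wr_trans h h'

theorem Nr.up {K K' : ℕ} (hK : K ≤ K') {x y : Ω} (h : Nr p q r K x y) : Nr p q r K' x y := Wr_up hK h

theorem nr_p (x : Ω) : Nr p q r 1 (p x) x := Wr_p (Wr_base (List.mem_singleton_self x))

theorem nr_q (x : Ω) : Nr p q r 1 (q x) x := Wr_q (Wr_base (List.mem_singleton_self x))

/-- the cover with one more token. -/
theorem cov_cons {K : ℕ} {l : List Ω} {x y : Ω} (h : x ∈ Wr p q r K (p f :: l)) : x ∈ Wr p q r K (p f :: y :: l) :=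
  Wr_mono (le_refl _) (fun z hz => by
    simp only [List.mem_cons] at hz ⊢
    tauto) h

theorem cov_new {K : ℕ} {l : List Ω} {x y : Ω} (h : Nr p q r K x y) : x ∈ Wr p q r K (p f :: y :: l) :=
  Wr_mono (le_refl _) (fun z hz => by
    simp only [List.mem_singleton] at hz
    simp [hz]) h

end D3
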