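import Pool.Agent.helper65.D3.Fin0
import Pool.Agent.helper3.NP.RowF
import Pool.Agent.helper36.T1.Stuck

/-!
# MP_c8d30a, exponent 12: Part I
-/

set_option autoImplicit false

namespace D3

open NTH

/-- **PART I**: at most three coloured letters. -/
theorem partI : PartI 43 170 :=
  partI_of2 (by norm_num) Pool.Agent.helper36.T1.R2stuck_20_6 (NP.rowF Pool.Agent.helper36.T1.R2stuck_20_6)

theorem partI_up {K : ℕ} (hK : 43 ≤ K) : PartI K 170 := by
  intro Ω _ p r f s hg hD hC
  obtain ⟨s', h1, h2, h3, h4⟩ := partI Ω p r f s hg hD hC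
  exact ⟨s', h1, h2, h3, Low.up hK h4⟩

end D3
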