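import Pool.Agent.helper65.D3.Star
import Pool.Agent.helper65.D3.PartI

/-!
# MP_c8d30a, exponent 12: Part I, from the two lemmas
-/

set_option autoImplicit false

namespace D3

open NTH

/-- **PART I**, from the lemma of the stuck letters and the lemma of the row. -/
theorem partI_of2 {K k : ℕ} (hK : 25 ≤ K) (hR : R2stuck_stmt 20 6) (hrow : row_stmt K k) : PartI K (k + 120) :=
  partI_of hK hR (star hK hR hrow)

end D3
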