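import Pool.Agent.helper65.D3.Fin
import Pool.Agent.helper14.NTN.Fin
import Pool.Agent.helper72.T1.PII

/-!
# MP_c8d30a: Q1
-/

set_option autoImplicit false

namespace D3

open NTH

/-- **Q1**: paths of length `C |E| ^ 12` for all quadratic word equations. -/
theorem Q1 : ∃ C : ℕ, ∀ (X A : Type) [DecidableEq X] [DecidableEq A] (E v₁ v₂ : Pool.Agent.helper36.WE.Eqn X A),
    Pool.Agent.helper36.WE.Quadratic E → Pool.Agent.helper36.WE.Reach E v₁ → Pool.Agent.helper36.WE.Reach v₁ v₂ →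
      ∃ n, n ≤ C * Pool.Agent.helper36.WE.size E ^ 12 ∧ Pool.Agent.helper36.WE.PathLen n v₁ v₂ :=
  Q1_of2 (c := 1200) (K := 1206) (partI_up (by norm_num)) (T1C.PII 1200) (le_refl _) (by norm_num)

end D3
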