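import Pool.Agent.helper65.D3.Stp

/-!
# MP_c8d30a, exponent 12, Part I: two letters with two clusters; a letter with one cluster
-/

set_option autoImplicit false

namespace D3

open NTH NP Equiv NTS
open Pool.Agent.helper32.RH (RTs)

variable {Ω : Type} [DecidableEq Ω] {p r : Ω → Ω} {s s' : St Ω} {f : Ω} {a b c d g h : Ω}

theorem Cv2.sw {q : Ω → Ω} {K : ℕ} (hc : Cv2 p q r f K a b c d) : Cv2 p q r f K c d a b := by
  obtain ⟨x, y, h1, h2, h3, h4⟩ := hc
  exact ⟨x, y, h3, h4, h1, h2⟩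

theorem Cv2.up {q : Ω → Ω} {K K' : ℕ} (hK : K ≤ K') (hc : Cv2 p q r f K a b c d) : Cv2 p q r f K' a b c d := by
  obtain ⟨x, y, h1, h2, h3, h4⟩ := hc
  exact ⟨x, y, Wr_up hK h1, Wr_up hK h2, Wr_up hK h3, Wr_up hK h4⟩

/-- the full walk of the first letter. -/
theorem Tri.fw (T : Tri p f s a b c d g h) (hs : ¬ (c ∈ s.1 ↔ g ∈ s.1)) (hC : Can p (NA.mu p s) r) :
    ∃ n s' a' b', (a', b') = wk p (NA.mu p s) n (a, b) ∧ RTs p (12 * (s.1 ++ s.2).length) s s' ∧
      (s'.1 ++ s'.2).Perm (s.1 ++ s.2) ∧ NA.mu p s' = NA.mu p s ∧ Tri p f s' a' b' c d g h ∧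
      (∀ k < n, NS p f s a b (wk p (NA.mu p s) k (a, b)).1 (wk p (NA.mu p s) k (a, b)).2) ∧
      (Stop p f s' a' b' ∨ Nr p (NA.mu p s) r 2 a' b') ∧ (a' ∈ s'.1 ↔ (a ∈ s.1 ↔ Even n)) ∧
      (c ∈ s'.1 ↔ c ∈ s.1) ∧ (g ∈ s'.1 ↔ g ∈ s.1) := by
  obtain ⟨n, hn, s', W, h1, h2, h3⟩ := fwalk T.gp T.c1 (T.fr hs) hC
  refine ⟨n, s', _, _, rfl, W.rts.mono (by omega), W.perm, W.mu, T.walked W, h1, h2, h3, T.sideC W, T.sw23.sideC W⟩

/-- one step of the first letter. -/
theorem Tri.st (T : Tri p f s a b c d g h) (hs : ¬ (c ∈ s.1 ↔ g ∈ s.1)) (hS : ¬ Stop p f s a b) :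
    ∃ s', RTs p 6 s s' ∧ (s'.1 ++ s'.2).Perm (s.1 ++ s.2) ∧ NA.mu p s' = NA.mu p s ∧ Tri p f s' (p b) (NA.mu p s a) c d g h ∧
      (p b ∈ s'.1 ↔ ¬ a ∈ s.1) ∧ (c ∈ s'.1 ↔ c ∈ s.1) ∧ (g ∈ s'.1 ↔ g ∈ s.1) := by
  have hw := T.wf
  obtain ⟨s', r1, W⟩ := wstep T.gp T.c1 (T.fr hs) hS
  have hcb : ¬ Cd p s b := fun h1 => hS (Or.inr (Or.inl h1))
  have hcb' : ¬ Cd p s (p b) := fun h1 => hcb ((Cd.p_iff hw).1 h1)
  obtain ⟨h1, h2, h3, h4⟩ := T.ac
  obtain ⟨k1, k2, k3, k4⟩ := T.ag
  have hcB : c ≠ b := fun e => hcb (e ▸ T.c2.1)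
  have hgB : g ≠ b := fun e => hcb (e ▸ T.c3.1)
  have hm : ∀ z, Cd p s z → z ≠ a → (z ∈ s'.1 ↔ z ∈ s.1) := by
    intro z hz h5
    have h6 : z ≠ b := fun e => hcb (e ▸ hz)
    rw [W.m1]
    constructor
    · rintro (h7 | ⟨h7 | h7, _⟩)
      · exact h7.1
      · exact absurd h7 h5
      · exact absurd h7 h6
    · exact fun h7 => Or.inl ⟨h7, h5, h6⟩
  refine ⟨s', r1, W.perm, W.mu, ⟨W.gp, W.d2.trans T.d2, W.cp hw, ?_, ?_, ?_⟩, ?_, hm c T.c2.1 h1, hm g T.c3.1 k1⟩
  · refine ⟨(W.cd c).2 (Or.inl ⟨T.c2.1, h1, h2⟩), ?_⟩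
    rw [W.ot (p c) (T.c2.1.pr hw) h3 h4]
    exact T.c2.2
  · refine ⟨(W.cd g).2 (Or.inl ⟨T.c3.1, k1, k2⟩), ?_⟩
    rw [W.ot (p g) (T.c3.1.pr hw) k3 k4]
    exact T.c3.2
  · intro z
    rw [W.cd, T.cd, hw.inv]
    constructor
    · rintro (⟨h5 | h5 | h5 | h5 | h5 | h5, h6, h7⟩ | h5 | h5)
      · exact absurd h5 h6
      · exact absurd h5 h7
      all_goals (first | grind | tauto)
    · rintro (h5 | h5 | h5 | h5 | h5 | h5)
      · (first | grind | tauto)
      · (first | grind | tauto)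
      · subst h5; left; exact ⟨by (first | grind | tauto), h1, h2⟩
      · subst h5; left; exact ⟨by (first | grind | tauto), h3, h4⟩
      · subst h5; left; exact ⟨by (first | grind | tauto), k1, k2⟩
      · subst h5; left; exact ⟨by (first | grind | tauto), k3, k4⟩
  · have hcu := (cd_iff hw).1 T.c1.1
    have hcv := (cd_iff W.gp.wf).1 ((W.cd b).2 (Or.inr (Or.inl rfl)))
    have e1 : b ∈ s'.1 ↔ a ∈ s.2 := by
      rw [W.m1]
      constructor
      · rintro (h4 | h4)
        · exact absurd rfl h4.2.2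
        · exact h4.2
      · intro h4
        exact Or.inr ⟨Or.inr rfl, h4⟩
    have e2 : a ∈ s.2 ↔ ¬ a ∈ s.1 := ⟨fun h4 h5 => dj hw h5 h4, fun h4 => hcu.1.resolve_left h4⟩
    rw [← hcv.2, e1, e2]

/-- the cover after a step. -/
theorem Cv2.step {q : Ω → Ω} {K : ℕ} (hc : Cv2 p q r f K a b c d) : Cv2 p q r f (K + 1) (p b) (q a) c d := by
  obtain ⟨x, y, h1, h2, h3, h4⟩ := hc
  exact ⟨x, y, Wr_p h2, Wr_q h1, Wr_succ h3, Wr_succ h4⟩

theorem Cv2.flip1 {q : Ω → Ω} {K : ℕ} (hc : Cv2 p q r f K a b c d) : Cv2 p q r f (K + 1) (p a) (q b) c d := by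
  obtain ⟨x, y, h1, h2, h3, h4⟩ := hc
  exact ⟨x, y, Wr_p h1, Wr_q h2, Wr_succ h3, Wr_succ h4⟩

/-- the third letter can walk. -/
theorem R2w {K : ℕ} (T : Tri p f s a b c d g h) (hC : Can p (NA.mu p s) r) (hc : Cv2 p (NA.mu p s) r f K a b c d)
    (hs : ¬ (a ∈ s.1 ↔ c ∈ s.1)) : Goal p r f s (K + 3) (12 * ((s.1 ++ s.2).length + 1)) := by
  have hs' : ¬ (c ∈ s.1 ↔ a ∈ s.1) := fun h => hs h.symm
  obtain ⟨n, s', a', b', hab, r1, hp, hm, T', _, hS, _⟩ := T.sw13.fw hs' hC
  have hL : Low p r f (K + 3) 3 s' := by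
    apply finish T' ?_ ?_
    · rw [hm]; exact hc.sw
    · rw [hm]; exact hS
  exact ⟨s', r1.mono (by omega), T'.gp, by rw [T'.d2], hL⟩

/-- two letters with two clusters which cannot move. -/
def R2stuck_stmt (j n : ℕ) : Prop := ∀ (Ω : Type) [DecidableEq Ω] (p r : Ω → Ω) (f : Ω) (s : St Ω) (a b c d g h : Ω) (K : ℕ),
  Tri p f s a b c d g h → Can p (NA.mu p s) r → Cv2 p (NA.mu p s) r f K a b c d → (a ∈ s.1 ↔ c ∈ s.1) →
  Stop p f s a b → Stop p f s (p a) (NA.mu p s b) → Stop p f s c d → Stop p f s (p c) (NA.mu p s d) → Goal p r f s (K + j) n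

/-- two letters with two clusters. -/
theorem R2 {K : ℕ} (hR : R2stuck_stmt 20 6) (T : Tri p f s a b c d g h) (hC : Can p (NA.mu p s) r)
    (hc : Cv2 p (NA.mu p s) r f K a b c d) : Goal p r f s (K + 20) (18 * ((s.1 ++ s.2).length + 1)) := by
  by_cases hs : a ∈ s.1 ↔ c ∈ s.1
  · have hsg : ¬ (c ∈ s.1 ↔ g ∈ s.1) := fun h1 => T.nas ⟨hs, hs.trans h1⟩
    -- a step of the first letter
    have key : ∀ {a b c d : Ω} {K : ℕ}, Tri p f s a b c d g h → Cv2 p (NA.mu p s) r f K a b c d → (a ∈ s.1 ↔ c ∈ s.1) →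
        ¬ (c ∈ s.1 ↔ g ∈ s.1) → ¬ Stop p f s a b → Goal p r f s (K + 4) (18 * ((s.1 ++ s.2).length + 1)) := by
      intro a b c d K T hc hs hsg hS
      obtain ⟨s', r1, hp, hm, T', e1, e2, e3⟩ := T.st hsg hS
      have h1 : Cv2 p (NA.mu p s') r f (K + 1) (p b) (NA.mu p s a) c d := by
        rw [hm]
        exact hc.step
      have h2 := R2w T' (by rw [hm]; exact hC) h1 (by
        rw [e1, e2, hs]
        (first | grind | tauto))
      refine (Goal.pre r1 hp h2).mono (by omega) ?_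
      rw [hp.length_eq]
      omega
    by_cases h1 : Stop p f s a b
    · by_cases h2 : Stop p f s (p a) (NA.mu p s b)
      · by_cases h3 : Stop p f s c d
        · by_cases h4 : Stop p f s (p c) (NA.mu p s d)
          · exact (hR Ω p r f s a b c d g h K T hC hc hs h1 h2 h3 h4).mono (le_refl _) (by omega)
          · have hw := T.wf
            have e1 : (p c ∈ s.1 ↔ c ∈ s.1) := ((cd_iff hw).1 T.c2.1).2.symm
            refine (key T.sw12.fl1 hc.sw.flip1 (by rw [e1]; exact hs.symm) ?_ h4).mono (by omega) (le_refl _)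
            rw [hs]
            exact hsg
        · refine (key T.sw12 hc.sw hs.symm ?_ h3).mono (by omega) (le_refl _)
          rw [hs]
          exact hsg
      · have hw := T.wf
        have e1 : (p a ∈ s.1 ↔ a ∈ s.1) := ((cd_iff hw).1 T.c1.1).2.symm
        exact (key T.fl1 hc.flip1 (by rw [e1]; exact hs) hsg h2).mono (by omega) (le_refl _)
    · exact (key T hc hs hsg h1).mono (by omega) (le_refl _)
  · exact (R2w T hC hc hs).mono (by omega) (by omega)

/-- a letter with one cluster. -/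
def SELF_stmt (K K' k : ℕ) : Prop := ∀ (Ω : Type) [DecidableEq Ω] (p r : Ω → Ω) (f : Ω) (s : St Ω) (a b c d g h : Ω),
  Tri p f s a b c d g h → Can p (NA.mu p s) r → Cv1 p (NA.mu p s) r f K a b → Goal p r f s K' (k * ((s.1 ++ s.2).length + 1))

theorem self (hR : R2stuck_stmt 20 6) (K : ℕ) : SELF_stmt K (K + 23) 30 := by
  intro Ω _ p r f s a b c d g h T hC hv
  -- the second letter can walk
  have key : ∀ {c d g h : Ω}, Tri p f s a b c d g h → ¬ (a ∈ s.1 ↔ g ∈ s.1) →
      Goal p r f s (K + 23) (30 * ((s.1 ++ s.2).length + 1)) := by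
    intro c d g h T hsg
    obtain ⟨n, s', c', d', hcd, r1, hp, hm, T', _, hS, _⟩ := T.sw12.fw hsg hC
    have hC' : Can p (NA.mu p s') r := by rw [hm]; exact hC
    have hw := T'.wf
    rw [← hm] at hv hS
    have nq : ∀ z : Ω, Nr p (NA.mu p s') r 1 (NA.mu p s' z) z := fun z => nr_q z
    have np : ∀ z : Ω, Nr p (NA.mu p s') r 1 (p z) z := fun z => nr_p z
    obtain ⟨x, hx1, hx2⟩ := hv
    have upx : ∀ {z w : Ω}, z ∈ Wr p (NA.mu p s') r K [p f, x] → z ∈ Wr p (NA.mu p s') r (K + 2) (p f :: [w, x]) :=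
      fun {z w} hz => Wr_up (by omega) (cov_cons hz)
    have nearx : ∀ {z u w : Ω}, Nr p (NA.mu p s') r 1 z u → u ∈ Wr p (NA.mu p s') r K [p f, x] →
        z ∈ Wr p (NA.mu p s') r (K + 2) (p f :: [w, x]) := fun {z u w} h5 h6 => Wr_up (by omega) (cov_cons (Nr.cov h5 h6))
    have selfm : ∀ {w : Ω}, w ∈ Wr p (NA.mu p s') r (K + 2) (p f :: [w, x]) := fun {w} => Wr_base (by simp)
    -- the case of two clusters
    have r2 : Cv2 p (NA.mu p s') r f (K + 2) a b c' d' → Goal p r f s (K + 23) (30 * ((s.1 ++ s.2).length + 1)) := by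
      intro h5
      have h6 := R2 hR T'.sw12 hC' h5
      refine (Goal.pre r1 hp h6).mono (by omega) ?_
      rw [hp.length_eq]
      omega
    have cC : c' ∈ Wr p (NA.mu p s') r (K + 2) (p f :: [d', x]) → Goal p r f s (K + 23) (30 * ((s.1 ++ s.2).length + 1)) :=
      fun h5 => r2 ⟨d', x, upx hx1, upx hx2, h5, selfm⟩
    have cD : d' ∈ Wr p (NA.mu p s') r (K + 2) (p f :: [c', x]) → Goal p r f s (K + 23) (30 * ((s.1 ++ s.2).length + 1)) :=
      fun h5 => r2 ⟨c', x, upx hx1, upx hx2, selfm, h5⟩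
    -- a good end state
    have fin : ∀ {s'' : St Ω} {j : ℕ}, RTs p 6 s' s'' → (s''.1 ++ s''.2).Perm (s'.1 ++ s'.2) → GP p f s'' → D2 p s'' ≤ 6 →
        Low p r f (K + 3) 3 s'' → Goal p r f s (K + 23) (30 * ((s.1 ++ s.2).length + 1)) := by
      intro s'' j r2 hp2 hg2 hd2 hl2
      have h6 : Goal p r f s' (K + 3) 6 := ⟨s'', r2, hg2, hd2, hl2⟩
      exact (Goal.pre r1 hp h6).mono (by omega) (by omega)
    by_cases hN : Nr p (NA.mu p s') r 2 c' d'
    · exact cC (Wr_up (by omega) (cov_new hN))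
    have hS := hS.resolve_right hN
    by_cases hown : c' = d'
    · exact cC (by rw [hown]; exact selfm)
    by_cases hwf : d' = f
    · apply cD
      have e : d' = p (p f) := by rw [hwf, hw.inv]
      rw [e]
      exact Wr_up (by omega) (Wr_p (Wr_base (K := 0) (by simp)))
    by_cases hwf' : d' = p f
    · exact cD (by rw [hwf']; exact Wr_base (by simp))
    by_cases hxa : c' = b ∨ c' = NA.mu p s' b
    · apply cC
      rcases hxa with h5 | h5
      · rw [h5]; exact upx hx2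
      · rw [h5]; exact nearx (nq _) hx2
    by_cases hya : d' = a ∨ d' = p a
    · apply cD
      rcases hya with h5 | h5
      · rw [h5]; exact upx hx1
      · rw [h5]; exact nearx (np _) hx1
    -- contact with the third letter
    have hX : MD p s' c' → c' = h ∨ c' = NA.mu p s' h := by
      intro h5
      rcases T'.mda h5 with h6 | h6 | h6
      · exact absurd h6 hown
      · exact absurd h6 hxa
      · exact h6
    have hY : Cd p s' d' → d' = g ∨ d' = p g := by
      intro h5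
      rcases T'.cdb h5 with h6 | h6 | h6
      · exact absurd h6 hown
      · exact absurd h6 hya
      · exact h6
    by_cases hmd : MD p s' c'
    · by_cases hcd' : Cd p s' d'
      · -- both
        have hl : Low p r f (K + 3) 3 s' := by
          refine low_tri (K := K + 2) (l := [g, h, x]) T' (by simp) ?_
          intro z hz
          simp only [List.mem_cons, List.not_mem_nil, or_false] at hz
          have hg0 : g ∈ Wr p (NA.mu p s') r 0 (p f :: [g, h, x]) := Wr_base (by simp)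
          have hh0 : h ∈ Wr p (NA.mu p s') r 0 (p f :: [g, h, x]) := Wr_base (by simp)
          have ux : ∀ {z : Ω}, z ∈ Wr p (NA.mu p s') r K [p f, x] → z ∈ Wr p (NA.mu p s') r (K + 2) (p f :: [g, h, x]) :=
            fun {z} hz => Wr_up (by omega) (cov_cons (cov_cons hz))
          rcases hz with h5 | h5 | h5 | h5 | h5 | h5
          · rw [h5]
            rcases hX hmd with h6 | h6
            · rw [h6]; exact Wr_up (by omega) hh0
            · rw [h6]; exact Wr_up (by omega) (Nr.cov (nq _) hh0)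
          · rw [h5]
            rcases hY hcd' with h6 | h6
            · rw [h6]; exact Wr_up (by omega) hg0
            · rw [h6]; exact Wr_up (by omega) (Nr.cov (np _) hg0)
          · rw [h5]; exact ux hx1
          · rw [h5]; exact ux hx2
          · rw [h5]; exact Wr_up (by omega) hg0
          · rw [h5]; exact Wr_up (by omega) hh0
        have h6 : Goal p r f s' (K + 3) 0 := Goal.here T'.gp (by rw [T'.d2]) hl
        exact (Goal.pre r1 hp h6).mono (by omega) (by omega)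
      · -- only the P-particle
        obtain ⟨s'', r3, hp3, hm3, D⟩ := hitX T'.sw23 (hX hmd) hcd' hwf hwf'
        refine fin (j := 0) r3 hp3 D.gp (by rw [D.d2]; omega) ?_
        refine low_duo (K := K + 2) (l := [g, d', x]) D (by simp) ?_
        intro z hz
        simp only [List.mem_cons, List.not_mem_nil, or_false] at hz
        rw [hm3]
        rcases hz with h5 | h5 | h5 | h5
        · rw [h5]; exact Wr_base (by simp)
        · rw [h5]; exact Wr_base (by simp)
        · rw [h5]; exact Wr_up (by omega) (cov_cons (cov_cons hx1))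
        · rw [h5]; exact Wr_up (by omega) (cov_cons (cov_cons hx2))
    · -- only the M-particle
      have hcd' : Cd p s' d' := by
        rcases hS with h5 | h5 | h5 | h5
        · exact absurd ((md_iff hw).2 h5) hmd
        · exact h5
        · exact absurd h5 hwf
        · exact absurd h5 hwf'
      obtain ⟨s'', r3, hp3, hm3, D⟩ := hitY T'.sw23 (hY hcd') hmd
      refine fin (j := 0) r3 hp3 D.gp (by rw [D.d2]; omega) ?_
      refine low_duo (K := K + 2) (l := [c', h, x]) D (by simp) ?_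
      intro z hz
      simp only [List.mem_cons, List.not_mem_nil, or_false] at hz
      rw [hm3]
      rcases hz with h5 | h5 | h5 | h5
      · rw [h5]; exact Wr_base (by simp)
      · rw [h5]; exact Wr_base (by simp)
      · rw [h5]; exact Wr_up (by omega) (cov_cons (cov_cons hx1))
      · rw [h5]; exact Wr_up (by omega) (cov_cons (cov_cons hx2))
  by_cases h1 : a ∈ s.1 ↔ g ∈ s.1
  · have h2 : ¬ (a ∈ s.1 ↔ c ∈ s.1) := fun h3 => T.nas ⟨h3, h1⟩
    exact key T.sw23 h2
  · exact key T h1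

end D3
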