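import Pool.Agent.helper65.D3.PartI

/-!
# MP_c8d30a, exponent 12, Part I: the contact which can be opened
-/

set_option autoImplicit false

namespace D3

open NTH NP Equiv NTS
open Pool.Agent.helper32.RH (RTs)

variable {Ω : Type} [DecidableEq Ω] {p r : Ω → Ω} {s s' : St Ω} {f : Ω} {a b c d g h : Ω}

/-- the third letter touches the M-particle of `c` from outside. -/
theorem gap2 {K k : ℕ} (hK : 25 ≤ K) (hR : R2stuck_stmt 20 6) (hrow : row_stmt K k) (T : Tri p f s g h c d a b) (hC : Can p (NA.mu p s) r)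
    (e1 : NA.mu p s b = p d) (e : g = NA.mu p s d) (s2 : ¬ (a ∈ s.1 ↔ c ∈ s.1)) :
    Goal p r f s K ((k + 36) * ((s.1 ++ s.2).length + 1)) := by
  have hw := T.wf
  have hpp := hw.inv
  have hmm := NA.mu_mu hpp s
  have sg : g ∈ s.1 ↔ c ∈ s.1 := T.sX (Or.inr e)
  have T' := T.fl1
  have sg' : (p g ∈ s.1 ↔ g ∈ s.1) := ((cd_iff hw).1 T.c1.1).2.symm
  have hs : ¬ (c ∈ s.1 ↔ a ∈ s.1) := fun h1 => s2 h1.symm
  -- near pair
  have eb : b = NA.mu p s (p d) := by rw [← e1, hmm]
  have self1 : Cv1 p (NA.mu p s) r f 2 g h → Goal p r f s K ((k + 36) * ((s.1 ++ s.2).length + 1)) := by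
    intro h1
    exact (self hR 2 Ω p r f s g h c d a b T hC h1).mono (by omega) (Nat.mul_le_mul_right _ (by omega))
  by_cases hS : Stop p f s (p g) (NA.mu p s h)
  · by_cases hown : p g = NA.mu p s h
    · apply self1
      have h1 : h = NA.mu p s (p g) := by rw [hown, hmm]
      refine ⟨g, Wr_base (by simp), ?_⟩
      rw [h1]
      exact Wr_q (Wr_p (Wr_base (K := 0) (by simp)))
    by_cases hwf : NA.mu p s h = f
    · apply self1
      have h1 : h = NA.mu p s (p (p f)) := by rw [hpp, ← hwf, hmm]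
      refine ⟨g, Wr_base (by simp), ?_⟩
      rw [h1]
      exact Wr_q (Wr_p (Wr_base (K := 0) (by simp)))
    by_cases hwf' : NA.mu p s h = p f
    · apply self1
      have h1 : h = NA.mu p s (p f) := by rw [← hwf', hmm]
      refine ⟨g, Wr_base (by simp), ?_⟩
      rw [h1]
      exact Wr_up (by omega) (Wr_q (Wr_base (K := 0) (by simp)))
    have hmd : ¬ MD p s (p g) := by
      intro h5
      rcases T'.mda h5 with h6 | h6 | h6
      · exact hown h6
      · rcases h6 with h6 | h6
        · -- `g = p d` is in the M-particle of `a`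
          have h7 : g = NA.mu p s b := by rw [e1, ← h6, hpp]
          have h8 := T.sw23.sX (Or.inr h7)
          exact s2 (h8.symm.trans sg)
        · rw [← e] at h6
          exact hw.ne g h6
      · have h8 := T'.sw23.sX h6
        exact s2 (h8.symm.trans (sg'.trans sg))
    have hcd : Cd p s (NA.mu p s h) := by
      rcases hS with h5 | h5 | h5 | h5
      · exact absurd ((md_iff hw).2 h5) hmd
      · exact h5
      · exact absurd h5 hwf
      · exact absurd h5 hwf'
    rcases T'.cdb hcd with h6 | h6 | h6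
    · exact absurd h6 hown
    · -- both contacts with `c`
      have hl : Low p r f (4 + 1) 3 s := by
        refine low_tri (K := 4) (l := [a, c, d]) T (by simp) ?_
        intro z hz
        simp only [List.mem_cons, List.not_mem_nil, or_false] at hz
        have hd0 : d ∈ Wr p (NA.mu p s) r 0 (p f :: [a, c, d]) := Wr_base (by simp)
        have hc0 : c ∈ Wr p (NA.mu p s) r 0 (p f :: [a, c, d]) := Wr_base (by simp)
        rcases hz with h5 | h5 | h5 | h5 | h5 | h5
        · rw [h5, e]; exact Wr_up (by omega) (Wr_q hd0)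
        · have h7 : h = NA.mu p s c ∨ h = NA.mu p s (p c) := by
            rcases h6 with h6 | h6
            · left; rw [← h6, hmm]
            · right; rw [← h6, hmm]
          rw [h5]
          rcases h7 with h7 | h7
          · rw [h7]; exact Wr_up (by omega) (Wr_q hc0)
          · rw [h7]; exact Wr_up (by omega) (Wr_q (Wr_p hc0))
        · rw [h5]; exact Wr_base (by simp)
        · rw [h5]; exact Wr_base (by simp)
        · rw [h5]; exact Wr_base (by simp)
        · rw [h5, eb]; exact Wr_up (by omega) (Wr_q (Wr_p hd0))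
      exact (Goal.here T.gp (by rw [T.d2]) hl).mono (by omega) (by omega)
    · have h8 := T'.sw23.sY h6
      exact absurd (h8.symm.trans (sg'.trans sg)) s2
  · obtain ⟨s', r1, hp, hm, T1, k1, k2, k3⟩ := T'.st hs hS
    have h1 := hrow Ω p r f s' a b c d _ _ T1.sw13 (by rw [hm]; exact hC) (by rw [hm]; exact e1)
      (by rw [hm, hmm, e]) (by rw [k1, k3, sg', sg]; (first | grind | tauto)) (by rw [k3, k2]; exact s2)
    refine (Goal.pre r1 hp h1).mono (le_refl _) ?_
    rw [hp.length_eq]
    nlinarith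

/-- two M-particles with one p-edge between them. -/
theorem gap {K k : ℕ} (hK : 25 ≤ K) (hR : R2stuck_stmt 20 6) (hrow : row_stmt K k) (T : Tri p f s a b c d g h) (hC : Can p (NA.mu p s) r)
    (e1 : NA.mu p s b = p d) (s2 : ¬ (a ∈ s.1 ↔ c ∈ s.1)) :
    Goal p r f s K ((k + 54) * ((s.1 ++ s.2).length + 1)) := by
  have hs : ¬ (c ∈ s.1 ↔ a ∈ s.1) := fun h1 => s2 h1.symm
  obtain ⟨n, s', g', h', hgh, r1, hp, hm, T', _, hS, _, kc, ka⟩ := T.sw13.fw hs hC
  have hC' : Can p (NA.mu p s') r := by rw [hm]; exact hC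
  have hw := T'.wf
  have hpp := hw.inv
  rw [← hm] at hS e1
  have hmm := NA.mu_mu hpp s'
  have s2' : ¬ (a ∈ s'.1 ↔ c ∈ s'.1) := by rw [ka, kc]; exact s2
  have eb : b = NA.mu p s' (p d) := by rw [← e1, hmm]
  have pre : ∀ {N : ℕ}, Goal p r f s' K N → N ≤ (k + 42) * ((s.1 ++ s.2).length + 1) →
      Goal p r f s K ((k + 54) * ((s.1 ++ s.2).length + 1)) := by
    intro N h1 h2
    refine (Goal.pre r1 hp h1).mono (le_refl _) ?_
    nlinarith
  have self1 : Cv1 p (NA.mu p s') r f 2 g' h' → Goal p r f s K ((k + 54) * ((s.1 ++ s.2).length + 1)) := by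
    intro h1
    refine pre ((self hR 2 Ω p r f s' g' h' c d a b T' hC' h1).mono (by omega) (le_refl _)) ?_
    rw [hp.length_eq]
    exact Nat.mul_le_mul_right _ (by omega)
  by_cases hN : Nr p (NA.mu p s') r 2 g' h'
  · exact self1 ⟨h', cov_new hN, Wr_base (by simp)⟩
  have hS := hS.resolve_right hN
  by_cases hown : g' = h'
  · exact self1 ⟨h', by rw [hown]; exact Wr_base (by simp), Wr_base (by simp)⟩
  by_cases hwf : h' = f
  · refine self1 ⟨g', Wr_base (by simp), ?_⟩
    have h9 : p (p f) ∈ Wr p (NA.mu p s') r 1 [p f, g'] := Wr_p (Wr_base (K := 0) (by simp))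
    rw [hpp] at h9
    rw [hwf]
    exact Wr_up (by omega) h9
  by_cases hwf' : h' = p f
  · refine self1 ⟨g', Wr_base (by simp), ?_⟩
    rw [hwf']
    exact Wr_base (by simp)
  have hX : MD p s' g' → (g' = d ∨ g' = NA.mu p s' d) ∨ (g' = b ∨ g' = NA.mu p s' b) := by
    intro h5
    rcases T'.mda h5 with h6 | h6 | h6
    · exact absurd h6 hown
    · exact Or.inl h6
    · exact Or.inr h6
  have hY : Cd p s' h' → (h' = c ∨ h' = p c) ∨ (h' = a ∨ h' = p a) := by
    intro h5
    rcases T'.cdb h5 with h6 | h6 | h6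
    · exact absurd h6 hown
    · exact Or.inl h6
    · exact Or.inr h6
  by_cases hmd : MD p s' g'
  · by_cases hcd : Cd p s' h'
    · -- both
      have hl : Low p r f (4 + 1) 3 s' := by
        refine low_tri (K := 4) (l := [a, c, d]) T' (by simp) ?_
        intro z hz
        simp only [List.mem_cons, List.not_mem_nil, or_false] at hz
        have hd0 : d ∈ Wr p (NA.mu p s') r 0 (p f :: [a, c, d]) := Wr_base (by simp)
        have hc0 : c ∈ Wr p (NA.mu p s') r 0 (p f :: [a, c, d]) := Wr_base (by simp)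
        have ha0 : a ∈ Wr p (NA.mu p s') r 0 (p f :: [a, c, d]) := Wr_base (by simp)
        have hb2 : b ∈ Wr p (NA.mu p s') r 2 (p f :: [a, c, d]) := by
          have h7 := Wr_q (r := r) (Wr_p (r := r) (q := NA.mu p s') hd0)
          rw [← eb] at h7
          exact h7
        rcases hz with h5 | h5 | h5 | h5 | h5 | h5
        · rw [h5]
          rcases hX hmd with (h6 | h6) | (h6 | h6)
          · rw [h6]; exact Wr_up (by omega) hd0
          · rw [h6]; exact Wr_up (by omega) (Wr_q hd0)
          · rw [h6]; exact Wr_up (by omega) hb2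
          · rw [h6]; exact Wr_up (by omega) (Wr_q hb2)
        · rw [h5]
          rcases hY hcd with (h6 | h6) | (h6 | h6)
          · rw [h6]; exact Wr_up (by omega) hc0
          · rw [h6]; exact Wr_up (by omega) (Wr_p hc0)
          · rw [h6]; exact Wr_up (by omega) ha0
          · rw [h6]; exact Wr_up (by omega) (Wr_p ha0)
        · rw [h5]; exact Wr_base (by simp)
        · rw [h5]; exact Wr_base (by simp)
        · rw [h5]; exact Wr_base (by simp)
        · rw [h5]; exact Wr_up (by omega) hb2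
      exact pre ((Goal.here T'.gp (by rw [T'.d2]) hl).mono (by omega) (le_refl _)) (by omega)
    · rcases hX hmd with h1 | h1
      · rcases h1 with h1 | h1
        · -- `p g'` is in the M-particle of `a`
          exfalso
          have h2 : p g' = NA.mu p s' b := by rw [e1, h1]
          have h3 := T'.sX (Or.inl h1)
          have h4 := T'.fl1.sw23.sX (Or.inr h2)
          have h5 := ((cd_iff hw).1 T'.c1.1).2
          exact s2' (h4.symm.trans (h5.symm.trans h3))
        · refine pre (gap2 hK hR hrow T' hC' e1 h1 s2') ?_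
          rw [hp.length_eq]
          exact Nat.mul_le_mul_right _ (by omega)
      · rcases h1 with h1 | h1
        · have T2 : Tri p f s' g' h' (p a) (NA.mu p s' b) (p c) (NA.mu p s' d) := T'.sw23.fl2.fl3
          refine pre (gap2 hK hR hrow T2 hC' ?_ ?_ ?_) ?_
          · rw [hmm, e1, hpp]
          · rw [hmm]; exact h1
          · intro h2
            have h3 := ((cd_iff hw).1 T'.c2.1).2
            have h4 := ((cd_iff hw).1 T'.c3.1).2
            exact s2' (h4.trans (h2.symm.trans h3.symm))
          · rw [hp.length_eq]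
            exact Nat.mul_le_mul_right _ (by omega)
        · exfalso
          have h2 : p g' = d := by rw [h1, e1, hpp]
          have h3 := T'.sw23.sX (Or.inr h1)
          have h4 := T'.fl1.sX (Or.inl h2)
          have h5 := ((cd_iff hw).1 T'.c1.1).2
          exact s2' (h3.symm.trans (h5.trans h4))
  · have hcd : Cd p s' h' := by
      rcases hS with h5 | h5 | h5 | h5
      · exact absurd ((md_iff hw).2 h5) hmd
      · exact h5
      · exact absurd h5 hwf
      · exact absurd h5 hwf'
    have fin : ∀ {s'' : St Ω} {K0 : ℕ}, RTs p 6 s' s'' → (s''.1 ++ s''.2).Perm (s'.1 ++ s'.2) → GP p f s'' → D2 p s'' = 4 →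
        Low p r f 4 3 s'' → Goal p r f s K ((k + 54) * ((s.1 ++ s.2).length + 1)) := by
      intro s'' K0 r2 hp2 hg2 hd2 hl2
      have h6 : Goal p r f s' 4 6 := ⟨s'', r2, hg2, by omega, hl2⟩
      exact pre (h6.mono (by omega) (le_refl _)) (by nlinarith)
    rcases hY hcd with h1 | h1
    · obtain ⟨s'', r3, hp3, hm3, D⟩ := hitY T' h1 hmd
      refine fin (K0 := 0) r3 hp3 D.gp D.d2 ?_
      refine low_duo (K := 3) (l := [g', d, a]) D (by simp) ?_
      intro z hz
      simp only [List.mem_cons, List.not_mem_nil, or_false] at hz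
      rw [hm3]
      have hd0 : d ∈ Wr p (NA.mu p s') r 0 (p f :: [g', d, a]) := Wr_base (by simp)
      rcases hz with h5 | h5 | h5 | h5
      · rw [h5]; exact Wr_base (by simp)
      · rw [h5]; exact Wr_base (by simp)
      · rw [h5]; exact Wr_base (by simp)
      · rw [h5, eb]; exact Wr_up (by omega) (Wr_q (Wr_p hd0))
    · obtain ⟨s'', r3, hp3, hm3, D⟩ := hitY T'.sw23 h1 hmd
      refine fin (K0 := 0) r3 hp3 D.gp D.d2 ?_
      refine low_duo (K := 3) (l := [g', d, c]) D (by simp) ?_
      intro z hz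
      simp only [List.mem_cons, List.not_mem_nil, or_false] at hz
      rw [hm3]
      have hd0 : d ∈ Wr p (NA.mu p s') r 0 (p f :: [g', d, c]) := Wr_base (by simp)
      rcases hz with h5 | h5 | h5 | h5
      · rw [h5]; exact Wr_base (by simp)
      · rw [h5, eb]; exact Wr_up (by omega) (Wr_q (Wr_p hd0))
      · rw [h5]; exact Wr_base (by simp)
      · rw [h5]; exact Wr_base (by simp)

/-- **the contact which can be opened.** -/
theorem star {K k : ℕ} (hK : 25 ≤ K) (hR : R2stuck_stmt 20 6) (hrow : row_stmt K k) : star_stmt K (k + 60) := by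
  intro Ω _ p r f s hg hSt hC
  obtain ⟨hD, t, ht, hx, hne, hop⟩ := hSt
  have hw := hg.wf
  have hpp := hw.inv
  set x := NA.sc s t with hxd
  have htx : x ≠ t := sc_ne hw ht Iff.rfl ht.mem
  have hn : [p t, p (p t), p x, p (p x)].Nodup := by
    rw [hpp, hpp]
    simp only [List.nodup_cons, List.mem_cons, List.not_mem_nil, or_false, not_or, List.nodup_nil, and_true]
    refine ⟨⟨hw.ne t, fun e => htx ?_, Ne.symm hne⟩, ⟨fun e => hne ?_, Ne.symm htx⟩, hw.ne x, not_false⟩
    · rw [← hpp t, e, hpp]
    · rw [e, hpp]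
  obtain ⟨g, hg1, hg2⟩ := third hg (ht.pr hw) (hx.pr hw) hn (by omega)
  have hn2 : [p t, p (p t), p x, p (p x), g, p g].Nodup := by
    have h1 : ([g, p g] ++ [p t, p (p t), p x, p (p x)]).Nodup := hg2
    exact (List.perm_append_comm.nodup_iff).1 h1
  have T := tri_mk hg hD (ht.pr hw) (hx.pr hw) hg1 hn2
  rw [hpp, hpp] at T
  have hpx : NA.pd s x = t := by rw [hxd, NA.pd_sc]
  rw [hpx] at T
  have hst : p t ∈ s.1 ↔ p x ∈ s.1 := by
    have h1 := ((cd_iff hw).1 ht).2
    have h2 := ((cd_iff hw).1 hx).2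
    have h3 : x ∈ s.1 ↔ t ∈ s.1 := NA.sc_mem_A hw.nd
    rw [← h1, ← h2, h3]
  have hsg : ¬ (p x ∈ s.1 ↔ g ∈ s.1) := fun h1 => T.nas ⟨hst, hst.trans h1⟩
  rcases hop with h1 | h1
  · have h2 : Cv1 p (NA.mu p s) r f 2 (p t) (NA.pd s t) := by
      rw [h1]
      exact ⟨p t, Wr_base (by simp), Wr_base (by simp)⟩
    exact (self hR 2 Ω p r f s _ _ _ _ _ _ T hC h2).mono (by omega) (Nat.mul_le_mul_right _ (by omega))
  · obtain ⟨s', r1, hp, hm, T1, k1, k2, k3⟩ := T.st hsg h1
    have h2 := gap hK hR hrow T1 (by rw [hm]; exact hC) (by rw [hm, NA.mu_mu hpp]) (by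
      rw [k1, k2, hst]
      (first | grind | tauto))
    refine (Goal.pre r1 hp h2).mono (le_refl _) ?_
    rw [hp.length_eq]
    nlinarith

end D3
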