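import Pool.Agent.helper65.D3.Self
import Pool.Agent.helper3.NP.D2

/-!
# MP_c8d30a, exponent 12, Part I: the start
-/

set_option autoImplicit false

namespace D3

open NTH NP Equiv NTS
open Pool.Agent.helper32.RH (RTs)

variable {Ω : Type} [DecidableEq Ω] {p r : Ω → Ω} {s s' : St Ω} {f : Ω}

theorem cp_of {t : Ω} (h : Cd p s t) : Cp p s t (NA.pd s (p t)) := ⟨h, rfl⟩

/-- a red and a blue letter. -/
theorem two_letters (hg : GP p f s) : ∃ o u, NA.Red p s o ∧ NA.Blu p s u ∧ [o, p o, u, p u].Nodup := by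
  have hw := hg.wf
  obtain ⟨o, ho⟩ := hg.red
  obtain ⟨u, hu⟩ := hg.blu
  refine ⟨o, u, ho, hu, ?_⟩
  have k1 : ∀ {x y : Ω}, x ∈ s.1 → y ∈ s.2 → x ≠ y := fun {x y} h1 h2 e => dj hw h1 (e ▸ h2)
  simp only [List.nodup_cons, List.mem_cons, List.not_mem_nil, or_false, not_or, List.nodup_nil, and_true]
  exact ⟨⟨(hw.ne o).symm, k1 ho.1 hu.1, k1 ho.1 hu.2⟩, ⟨k1 ho.2 hu.1, k1 ho.2 hu.2⟩, (hw.ne u).symm, not_false⟩

/-- a third letter. -/
theorem third (hg : GP p f s) {o u : Ω} (ho : Cd p s o) (hu : Cd p s u) (hn : [o, p o, u, p u].Nodup) (hD : 4 < D2 p s) :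
    ∃ g, Cd p s g ∧ [g, p g, o, p o, u, p u].Nodup := by
  have hw := hg.wf
  have h1 : ({o, p o, u, p u} : Finset Ω).card = 4 := by
    have this : [o, p o, u, p u].toFinset.card = 4 := List.toFinset_card_of_nodup hn
    rw [← this]
    congr 1
    ext z
    simp
  obtain ⟨g, hg1, hg2⟩ : ∃ g ∈ CS p s, g ∉ ({o, p o, u, p u} : Finset Ω) := by
    by_contra hcon
    push Not at hcon
    have h2 : CS p s ⊆ ({o, p o, u, p u} : Finset Ω) := fun z hz => hcon z hz
    have h3 := Finset.card_le_card h2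
    rw [D2_card hw] at hD
    omega
  refine ⟨g, mem_CS.1 hg1, ?_⟩
  simp only [Finset.mem_insert, Finset.mem_singleton, not_or] at hg2
  obtain ⟨n1, n2, n3, n4⟩ := hg2
  have hpp := hw.inv
  have m1 : p g ≠ o := fun e => n2 (by rw [← e, hpp])
  have m2 : p g ≠ p o := fun e => n1 (by rw [← hpp g, e, hpp])
  have m3 : p g ≠ u := fun e => n4 (by rw [← e, hpp])
  have m4 : p g ≠ p u := fun e => n3 (by rw [← hpp g, e, hpp])
  simp only [List.nodup_cons, List.mem_cons, List.not_mem_nil, or_false, not_or, List.nodup_nil, and_true] at hn ⊢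
  exact ⟨⟨(hw.ne g).symm, n1, n2, n3, n4⟩, ⟨m1, m2, m3, m4⟩, hn⟩

/-- `4` or at least `6` coloured tokens. -/
theorem d2_cases (hg : GP p f s) : D2 p s = 4 ∨ 6 ≤ D2 p s := by
  have hw := hg.wf
  obtain ⟨o, u, ho, hu, hn⟩ := two_letters hg
  have ho' : Cd p s o := Or.inl ho
  have hu' : Cd p s u := Or.inr hu
  by_cases h4 : 4 < D2 p s
  · right
    obtain ⟨g, hg1, hg2⟩ := third hg ho' hu' hn h4
    rw [D2_card hw, ← List.toFinset_card_of_nodup hg2 |>.trans (by rfl : _ = 6)]
    apply Finset.card_le_card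
    intro z hz
    rw [List.mem_toFinset] at hz
    rw [mem_CS]
    simp only [List.mem_cons, List.not_mem_nil, or_false] at hz
    rcases hz with h | h | h | h | h | h <;> rw [h]
    exacts [hg1, hg1.pr hw, ho', ho'.pr hw, hu', hu'.pr hw]
  · left
    have h5 : 4 ≤ D2 p s := by
      rw [D2_card hw, ← List.toFinset_card_of_nodup hn |>.trans (by rfl : _ = 4)]
      apply Finset.card_le_card
      intro z hz
      rw [List.mem_toFinset] at hz
      rw [mem_CS]
      simp only [List.mem_cons, List.not_mem_nil, or_false] at hz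
      rcases hz with h | h | h | h <;> rw [h]
      exacts [ho', ho'.pr hw, hu', hu'.pr hw]
    omega

/-- three letters. -/
theorem tri_mk (hg : GP p f s) (hD : D2 p s = 6) {a c g : Ω} (ha : Cd p s a) (hc : Cd p s c) (hgg : Cd p s g)
    (hn : [a, p a, c, p c, g, p g].Nodup) : Tri p f s a (NA.pd s (p a)) c (NA.pd s (p c)) g (NA.pd s (p g)) := by
  have hw := hg.wf
  refine ⟨hg, hD, cp_of ha, cp_of hc, cp_of hgg, ?_⟩
  have h1 : [a, p a, c, p c, g, p g].toFinset = CS p s := by
    apply Finset.eq_of_subset_of_card_le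
    · intro z hz
      rw [List.mem_toFinset] at hz
      rw [mem_CS]
      simp only [List.mem_cons, List.not_mem_nil, or_false] at hz
      rcases hz with h | h | h | h | h | h <;> rw [h]
      exacts [ha, ha.pr hw, hc, hc.pr hw, hgg, hgg.pr hw]
    · rw [← D2_card hw, hD, List.toFinset_card_of_nodup hn]
      rfl
  intro z
  rw [← mem_CS, ← h1, List.mem_toFinset]
  simp only [List.mem_cons, List.not_mem_nil, or_false]

theorem tri_of (hg : GP p f s) (hD : D2 p s = 6) : ∃ a b c d g h, Tri p f s a b c d g h ∧ ¬ (c ∈ s.1 ↔ g ∈ s.1) := by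
  have hw := hg.wf
  obtain ⟨o, u, ho, hu, hn⟩ := two_letters hg
  have ho' : Cd p s o := Or.inl ho
  have hu' : Cd p s u := Or.inr hu
  obtain ⟨g, hg1, hg2⟩ := third hg ho' hu' hn (by omega)
  refine ⟨_, _, _, _, _, _, tri_mk hg hD hg1 ho' hu' hg2, ?_⟩
  intro h1
  exact dj hw (h1.1 ho.1) hu.1

/-- two letters. -/
theorem duo_mk (hg : GP p f s) (hD : D2 p s = 4) {a c : Ω} (ha : Cd p s a) (hc : Cd p s c) (hn : [a, p a, c, p c].Nodup) :
    Duo p f s a (NA.pd s (p a)) c (NA.pd s (p c)) := by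
  have hw := hg.wf
  have hcd : ∀ z, Cd p s z ↔ z = a ∨ z = p a ∨ z = c ∨ z = p c := by
    have h1 : [a, p a, c, p c].toFinset = CS p s := by
      apply Finset.eq_of_subset_of_card_le
      · intro z hz
        rw [List.mem_toFinset] at hz
        rw [mem_CS]
        simp only [List.mem_cons, List.not_mem_nil, or_false] at hz
        rcases hz with h | h | h | h <;> rw [h]
        exacts [ha, ha.pr hw, hc, hc.pr hw]
      · rw [← D2_card hw, hD, List.toFinset_card_of_nodup hn]
        rfl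
    intro z
    rw [← mem_CS, ← h1, List.mem_toFinset]
    simp only [List.mem_cons, List.not_mem_nil, or_false]
  refine ⟨hg, hD, hcd, ?_⟩
  intro z
  rw [md_iff hw, hcd]
  have key : ∀ u : Ω, (NA.sc s z = u ↔ z = NA.mu p s (NA.pd s (p u))) ∧ (NA.sc s z = p u ↔ z = NA.pd s (p u)) := by
    intro u
    constructor
    · rw [NA.mu_pd, hw.inv]
      constructor
      · intro h2
        rw [← h2, NA.pd_sc]
      · intro h2
        rw [h2, NA.sc_pd]
    · constructor
      · intro h2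
        rw [← h2, NA.pd_sc]
      · intro h2
        rw [h2, NA.sc_pd]
  rw [(key a).1, (key a).2, (key c).1, (key c).2]
  tauto

/-- two letters which are near. -/
theorem near_low (hg : GP p f s) (hD : D2 p s = 4) (hN : Near p f s) : Low p r f 3 3 s := by
  have hw := hg.wf
  obtain ⟨x, hx, hN⟩ := hN
  obtain ⟨o, u, ho, hu, hn⟩ := two_letters hg
  -- the other letter
  obtain ⟨y, hy, hxy, hxn⟩ : ∃ y, Cd p s y ∧ [x, p x, y, p y].Nodup ∧ ¬ (x ∈ s.1 ↔ y ∈ s.1) := by
    have k1 : ∀ {x y : Ω}, x ∈ s.1 → y ∈ s.2 → x ≠ y := fun {x y} h1 h2 e => dj hw h1 (e ▸ h2)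
    rcases hx with hx | hx
    · refine ⟨u, Or.inr hu, ?_, fun h => dj hw (h.1 hx.1) hu.1⟩
      simp only [List.nodup_cons, List.mem_cons, List.not_mem_nil, or_false, not_or, List.nodup_nil, and_true]
      exact ⟨⟨(hw.ne x).symm, k1 hx.1 hu.1, k1 hx.1 hu.2⟩, ⟨k1 hx.2 hu.1, k1 hx.2 hu.2⟩, (hw.ne u).symm, not_false⟩
    · refine ⟨o, Or.inl ho, ?_, fun h => dj hw (h.2 ho.1) hx.1⟩
      simp only [List.nodup_cons, List.mem_cons, List.not_mem_nil, or_false, not_or, List.nodup_nil, and_true]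
      exact ⟨⟨(hw.ne x).symm, (k1 ho.1 hx.1).symm, (k1 ho.2 hx.1).symm⟩, ⟨(k1 ho.1 hx.2).symm, (k1 ho.2 hx.2).symm⟩, (hw.ne o).symm, not_false⟩
  have D := duo_mk hg hD hx hy hxy
  have hpp := hw.inv
  have nq : ∀ z : Ω, Nr p (NA.mu p s) r 1 (NA.mu p s z) z := fun z => nr_q z
  have np : ∀ z : Ω, Nr p (NA.mu p s) r 1 (p z) z := fun z => nr_p z
  have own : NA.sc s x = p x → Low p r f 3 3 s := by
    intro h1
    have h2 : NA.pd s (p x) = x := by rw [← h1, NA.pd_sc]
    refine low_duo (K := 2) (l := [x, y, NA.pd s (p y)]) D (by simp) ?_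
    intro z hz
    simp only [List.mem_cons, List.not_mem_nil, or_false] at hz
    rcases hz with h | h | h | h <;> rw [h]
    · exact Wr_base (by simp)
    · rw [h2]; exact Wr_base (by simp)
    · exact Wr_base (by simp)
    · exact Wr_base (by simp)
  have wall : ∀ w : Ω, NA.mu p s x = w → w ∈ Wr p (NA.mu p s) r 1 (p f :: [NA.pd s (p x), y, NA.pd s (p y)]) → Low p r f 3 3 s := by
    intro w h1 h2
    have h3 : x = NA.mu p s w := by rw [← h1, NA.mu_mu hpp]
    have h4 : x ∈ Wr p (NA.mu p s) r 2 (p f :: [NA.pd s (p x), y, NA.pd s (p y)]) := by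
      have h5 := Wr_q h2
      rw [← h3] at h5
      exact h5
    refine low_duo (K := 2) (l := [NA.pd s (p x), y, NA.pd s (p y)]) D (by simp) ?_
    intro z hz
    simp only [List.mem_cons, List.not_mem_nil, or_false] at hz
    rcases hz with h | h | h | h
    · rw [h]; exact h4
    · rw [h]; exact Wr_base (by simp)
    · rw [h]; exact Wr_base (by simp)
    · rw [h]; exact Wr_base (by simp)
  rcases hN with h1 | h1 | h1 | h1
  · exact own h1
  · rcases (D.cd _).1 h1 with h2 | h2 | h2 | h2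
    · exact absurd h2 (mu_ne hw x)
    · -- the mu-edge of `x` is the letter of `x`
      apply own
      have h3 : MD p s x := by
        rw [md_iff' hw]
        refine ⟨hx.mem, ?_⟩
        rw [h2]
        exact ((cd_iff hw).1 hx).2
      have h4 := (md_iff hw).1 h3
      have h5 : NA.sc s x ∈ s.1 ↔ x ∈ s.1 := NA.sc_mem_A hw.nd
      rcases (D.cd _).1 h4 with h6 | h6 | h6 | h6
      · exact absurd h6 (sc_ne hw hx Iff.rfl hx.mem)
      · exact h6
      · rw [h6] at h5; exact absurd h5.symm hxn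
      · rw [h6] at h5
        exact absurd (h5.symm.trans ((cd_iff hw).1 hy).2.symm) hxn
    · exact wall _ h2 (Wr_base (by simp))
    · exact wall _ h2 (Nr.cov (np _) (Wr_base (K := 0) (by simp)))
  · apply wall _ h1
    have h9 : p (p f) ∈ Wr p (NA.mu p s) r 1 (p f :: [NA.pd s (p x), y, NA.pd s (p y)]) := Wr_p (Wr_base (K := 0) (by simp))
    rwa [hpp] at h9
  · exact wall _ h1 (Wr_base (by simp))

end D3
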