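import Pool.Agent.helper65.D3.Can
import Pool.Agent.helper3.NP.Hit

/-!
# MP_c8d30a, exponent 12, Part I: what stops a walk if there are three coloured letters
-/

set_option autoImplicit false

namespace D3

open NTH NP Equiv NTS
open Pool.Agent.helper32.RH (RTs)

variable {Ω : Type} [DecidableEq Ω] {p r : Ω → Ω} {s s' : St Ω} {f : Ω} {a b c d g h : Ω}

/-- not all the colours are equal. -/
theorem Tri.nas (T : Tri p f s a b c d g h) : ¬ ((a ∈ s.1 ↔ c ∈ s.1) ∧ (a ∈ s.1 ↔ g ∈ s.1)) := by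
  rintro ⟨h1, h2⟩
  have hw := T.wf
  have e1 := ((cd_iff hw).1 T.c1.1).2
  have e2 := ((cd_iff hw).1 T.c2.1).2
  have e3 := ((cd_iff hw).1 T.c3.1).2
  obtain ⟨o, ho⟩ := T.gp.red
  obtain ⟨u, hu⟩ := T.gp.blu
  have k1 : a ∈ s.1 := by
    rcases (T.cd o).1 (Or.inl ho) with h3 | h3 | h3 | h3 | h3 | h3
    · exact h3 ▸ ho.1
    · exact e1.2 (h3 ▸ ho.1)
    · exact h1.2 (h3 ▸ ho.1)
    · exact h1.2 (e2.2 (h3 ▸ ho.1))
    · exact h2.2 (h3 ▸ ho.1)
    · exact h2.2 (e3.2 (h3 ▸ ho.1))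
  have k2 : u ∈ s.1 := by
    rcases (T.cd u).1 (Or.inr hu) with h3 | h3 | h3 | h3 | h3 | h3
    · exact h3 ▸ k1
    · exact h3 ▸ e1.1 k1
    · exact h3 ▸ h1.1 k1
    · exact h3 ▸ e2.1 (h1.1 k1)
    · exact h3 ▸ h2.1 k1
    · exact h3 ▸ e3.1 (h2.1 k1)
  exact dj hw k2 hu.1

/-- the letter of `a` can walk. -/
theorem Tri.fr (T : Tri p f s a b c d g h) (hs : ¬ (c ∈ s.1 ↔ g ∈ s.1)) : Fr p s a := by
  have hw := T.wf
  obtain ⟨h1, h2, h3, h4⟩ := T.ac
  obtain ⟨k1, k2, k3, k4⟩ := T.ag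
  have e2 := (cd_iff hw).1 T.c2.1
  have e3 := (cd_iff hw).1 T.c3.1
  rcases T.c2.1 with c1 | c1
  · rcases T.c3.1 with g1 | g1
    · exact absurd (iff_of_true c1.1 g1.1) hs
    · exact ⟨⟨c, c1, h1, h2⟩, ⟨g, g1, k1, k2⟩⟩
  · rcases T.c3.1 with g1 | g1
    · exact ⟨⟨g, g1, k1, k2⟩, ⟨c, c1, h1, h2⟩⟩
    · exact absurd (iff_of_false (fun h => dj hw h c1.1) (fun h => dj hw h g1.1)) hs

theorem Tri.sX (T : Tri p f s a b c d g h) (hx : a = d ∨ a = NA.mu p s d) : a ∈ s.1 ↔ c ∈ s.1 := by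
  have hw := T.wf
  rcases hx with hx | hx
  · rw [hx]; exact T.c2.sdA hw
  · rw [hx]
    have h1 := (T.c2.flip hw).sdA hw
    rw [h1]
    exact ((cd_iff hw).1 T.c2.1).2.symm

theorem Tri.sY (T : Tri p f s a b c d g h) (hx : b = c ∨ b = p c) : a ∈ s.1 ↔ c ∈ s.1 := by
  have hw := T.wf
  have h1 := T.c1.sdA hw
  rw [← h1]
  rcases hx with hx | hx
  · rw [hx]
  · rw [hx]
    exact ((cd_iff hw).1 T.c2.1).2.symm

/-- the token `a` of a mu-defect. -/
theorem Tri.mda (T : Tri p f s a b c d g h) (hm : MD p s a) :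
    a = b ∨ (a = d ∨ a = NA.mu p s d) ∨ (a = h ∨ a = NA.mu p s h) := by
  rcases (T.md a).1 hm with h1 | h1 | h1 | h1 | h1 | h1
  · exact Or.inl h1
  · exfalso
    have hw := T.wf
    have h2 := (T.c1.flip hw).2
    rw [hw.inv, ← h1] at h2
    apply sc_ne hw T.c1.1 Iff.rfl T.c1.1.mem
    conv_lhs => rw [← h2, NA.sc_pd]
  all_goals (first | grind | tauto)

theorem Tri.cdb (T : Tri p f s a b c d g h) (hm : Cd p s b) : a = b ∨ (b = c ∨ b = p c) ∨ (b = g ∨ b = p g) := by
  rcases (T.cd b).1 hm with h1 | h1 | h1 | h1 | h1 | h1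
  · exact Or.inl h1.symm
  · exfalso
    have hw := T.wf
    have h2 := T.c1.2
    rw [h1] at h2
    apply sc_ne hw T.c1.1 (((cd_iff hw).1 T.c1.1).2.symm) (T.c1.1.pr hw).mem
    conv_lhs => rw [← h2, NA.sc_pd]
  all_goals (first | grind | tauto)

/-- the third letter has walked. -/
theorem finish {K : ℕ} (T : Tri p f s a b c d g h) (hc : Cv2 p (NA.mu p s) r f K c d g h)
    (hS : Stop p f s a b ∨ Nr p (NA.mu p s) r 2 a b) : Low p r f (K + 3) 3 s := by
  obtain ⟨x, y, h1, h2, h3, h4⟩ := hc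
  have hw := T.wf
  have up : ∀ {z w : Ω}, z ∈ Wr p (NA.mu p s) r K [p f, x, y] → z ∈ Wr p (NA.mu p s) r (K + 2) (p f :: [w, x, y]) := by
    intro z w hz
    exact Wr_up (by omega) (cov_cons hz)
  have near : ∀ {z u w : Ω}, Nr p (NA.mu p s) r 1 z u → u ∈ Wr p (NA.mu p s) r K [p f, x, y] →
      z ∈ Wr p (NA.mu p s) r (K + 2) (p f :: [w, x, y]) := by
    intro z u w h5 h6
    exact Wr_up (by omega) (cov_cons (Nr.cov h5 h6))
  have self : ∀ {w : Ω}, w ∈ Wr p (NA.mu p s) r (K + 2) (p f :: [w, x, y]) := fun {w} => Wr_base (by simp)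
  have nq : ∀ z : Ω, Nr p (NA.mu p s) r 1 (NA.mu p s z) z := fun z => nr_q z
  have np : ∀ z : Ω, Nr p (NA.mu p s) r 1 (p z) z := fun z => nr_p z
  have cA : a ∈ Wr p (NA.mu p s) r (K + 2) (p f :: [b, x, y]) → Low p r f (K + 3) 3 s := by
    intro h5
    refine low_tri (K := K + 2) (l := [b, x, y]) T (by simp) ?_
    intro z hz
    simp only [List.mem_cons, List.not_mem_nil, or_false] at hz
    rcases hz with rfl | rfl | rfl | rfl | rfl | rfl
    · exact h5
    · exact self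
    · exact up h1
    · exact up h2
    · exact up h3
    · exact up h4
  have cB : b ∈ Wr p (NA.mu p s) r (K + 2) (p f :: [a, x, y]) → Low p r f (K + 3) 3 s := by
    intro h5
    refine low_tri (K := K + 2) (l := [a, x, y]) T (by simp) ?_
    intro z hz
    simp only [List.mem_cons, List.not_mem_nil, or_false] at hz
    rcases hz with rfl | rfl | rfl | rfl | rfl | rfl
    · exact self
    · exact h5
    · exact up h1
    · exact up h2
    · exact up h3
    · exact up h4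
  rcases hS with (h5 | h5 | h5 | h5) | h5
  · rcases T.mda ((md_iff hw).2 h5) with h6 | (h6 | h6) | (h6 | h6)
    · exact cA (by rw [h6]; exact self)
    · exact cA (by rw [h6]; exact up h2)
    · exact cA (by rw [h6]; exact near (nq _) h2)
    · exact cA (by rw [h6]; exact up h4)
    · exact cA (by rw [h6]; exact near (nq _) h4)
  · rcases T.cdb h5 with h6 | (h6 | h6) | (h6 | h6)
    · exact cA (by rw [h6]; exact self)
    · exact cB (by rw [h6]; exact up h1)
    · exact cB (by rw [h6]; exact near (np _) h1)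
    · exact cB (by rw [h6]; exact up h3)
    · exact cB (by rw [h6]; exact near (np _) h3)
  · apply cB
    have e : b = p (p f) := by rw [h5, hw.inv]
    rw [e]
    exact Wr_up (by omega) (Wr_p (Wr_base (K := 0) (by simp)))
  · exact cB (by rw [h5]; exact Wr_base (by simp))
  · exact cA (Wr_up (by omega) (cov_new h5))

/-- the P-particle of the first letter is annihilated. -/
theorem hitX (T : Tri p f s a b c d g h) (hx : a = d ∨ a = NA.mu p s d) (h1 : ¬ Cd p s b) (h2 : b ≠ f) (h3 : b ≠ p f) :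
    ∃ s', RTs p 6 s s' ∧ (s'.1 ++ s'.2).Perm (s.1 ++ s.2) ∧ NA.mu p s' = NA.mu p s ∧ Duo p f s' c b g h := by
  have hw := T.wf
  have hm : MD p s a := by
    rcases hx with hx | hx
    · rw [hx]; exact T.c2.md hw
    · rw [hx]; exact (T.c2.md hw).mu hw
  obtain ⟨s', r1, A, _⟩ := xhit T.gp T.c1 ((md_iff hw).1 hm) h1 h2 h3
  refine ⟨s', r1, A.perm, A.mu, A.gp, ?_, ?_, ?_⟩
  · have := A.d2
    have := T.d2
    omega
  · intro z
    rw [A.cd, T.cd]
    obtain ⟨k1, k2, k3, k4⟩ := T.ac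
    obtain ⟨l1, l2, l3, l4⟩ := T.ag
    constructor
    · (first | grind | tauto)
    · rintro (h5 | h5 | h5 | h5) <;> subst h5
      · exact ⟨by (first | grind | tauto), k1, k2⟩
      · exact ⟨by (first | grind | tauto), k3, k4⟩
      · exact ⟨by (first | grind | tauto), l1, l2⟩
      · exact ⟨by (first | grind | tauto), l3, l4⟩
  · intro z
    rw [A.md, T.md, A.mu]
    obtain ⟨k1, k2, k3, k4⟩ := T.bd
    obtain ⟨l1, l2, l3, l4⟩ := T.sw12.sw23.bd
    have hmm := NA.mu_mu hw.inv s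
    have key : (z ≠ a ∧ z ≠ NA.mu p s a) ↔ (z ≠ d ∧ z ≠ NA.mu p s d) := by
      rcases hx with hx | hx
      · rw [hx]
      · rw [hx, hmm]
        (first | grind | tauto)
    rw [key]
    constructor
    · (first | grind | tauto)
    · rintro (h5 | h5 | h5 | h5) <;> subst h5
      · exact ⟨by (first | grind | tauto), k1.symm, k3.symm⟩
      · exact ⟨by (first | grind | tauto), k2.symm, k4.symm⟩
      · exact ⟨by (first | grind | tauto), l1, l2⟩
      · exact ⟨by (first | grind | tauto), l3, l4⟩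

/-- the M-particle of the first letter is annihilated. -/
theorem hitY (T : Tri p f s a b c d g h) (hx : b = c ∨ b = p c) (h1 : ¬ MD p s a) :
    ∃ s', RTs p 6 s s' ∧ (s'.1 ++ s'.2).Perm (s.1 ++ s.2) ∧ NA.mu p s' = NA.mu p s ∧ Duo p f s' a d g h := by
  have hw := T.wf
  have hm : Cd p s b := by
    rcases hx with hx | hx
    · rw [hx]; exact T.c2.1
    · rw [hx]; exact T.c2.1.pr hw
  have hab : a ≠ b := by
    intro e
    have h4 := T.c1.md hw
    rw [← e] at h4
    exact h1 h4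
  obtain ⟨s', r1, A, _⟩ := yhit T.gp T.c1 (fun h4 => h1 ((md_iff hw).2 h4)) hm hab
  refine ⟨s', r1, A.perm, A.mu, A.gp, ?_, ?_, ?_⟩
  · have := A.d2
    have := T.d2
    omega
  · intro z
    rw [A.cd, T.cd]
    obtain ⟨k1, k2, k3, k4⟩ := T.ac
    obtain ⟨l1, l2, l3, l4⟩ := T.cg
    have hpp := hw.inv
    have key : (z ≠ b ∧ z ≠ p b) ↔ (z ≠ c ∧ z ≠ p c) := by
      rcases hx with hx | hx
      · rw [hx]
      · rw [hx, hpp]
        (first | grind | tauto)
    rw [key]
    constructor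
    · (first | grind | tauto)
    · rintro (h5 | h5 | h5 | h5) <;> subst h5
      · exact ⟨by (first | grind | tauto), k1.symm, k3.symm⟩
      · exact ⟨by (first | grind | tauto), k2.symm, k4.symm⟩
      · exact ⟨by (first | grind | tauto), l1, l2⟩
      · exact ⟨by (first | grind | tauto), l3, l4⟩
  · intro z
    rw [A.md, T.md, A.mu]
    obtain ⟨k1, k2, k3, k4⟩ := T.bd
    obtain ⟨l1, l2, l3, l4⟩ := T.sw23.bd
    constructor
    · (first | grind | tauto)
    · rintro (h5 | h5 | h5 | h5) <;> subst h5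
      · exact ⟨by (first | grind | tauto), k1, k2⟩
      · exact ⟨by (first | grind | tauto), k3, k4⟩
      · exact ⟨by (first | grind | tauto), l1, l2⟩
      · exact ⟨by (first | grind | tauto), l3, l4⟩

end D3
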