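import Pool.Agent.helper3.NP.Walk

/-!
# MP_c8d30a, exponent 12, Part I: pairs with three or two coloured letters
-/

set_option autoImplicit false

namespace D3

open NTH NP Equiv NTS
open Pool.Agent.helper32.RH (RTs)

variable {Ω : Type} [DecidableEq Ω] {p : Ω → Ω} {s s' : St Ω} {f : Ω}

/-- exactly three coloured letters, with their coupled pairs. -/
structure Tri (p : Ω → Ω) (f : Ω) (s : St Ω) (a b c d g h : Ω) : Prop where
  gp : GP p f s
  d2 : D2 p s = 6
  c1 : Cp p s a b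
  c2 : Cp p s c d
  c3 : Cp p s g h
  cd : ∀ z, Cd p s z ↔ z = a ∨ z = p a ∨ z = c ∨ z = p c ∨ z = g ∨ z = p g

/-- exactly two coloured letters; only the defects matter. -/
structure Duo (p : Ω → Ω) (f : Ω) (s : St Ω) (a b c d : Ω) : Prop where
  gp : GP p f s
  d2 : D2 p s = 4
  cd : ∀ z, Cd p s z ↔ z = a ∨ z = p a ∨ z = c ∨ z = p c
  md : ∀ z, MD p s z ↔ z = b ∨ z = NA.mu p s b ∨ z = d ∨ z = NA.mu p s d

section
variable {a b c d g h : Ω}

theorem Tri.wf (T : Tri p f s a b c d g h) : WF p s := T.gp.wf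

theorem Tri.card (T : Tri p f s a b c d g h) : ({a, p a, c, p c, g, p g} : Finset Ω).card = 6 := by
  rw [← T.d2, D2_card T.wf]
  congr 1
  ext z
  rw [mem_CS, T.cd]
  simp only [Finset.mem_insert, Finset.mem_singleton]

theorem card_lt {l : List Ω} {n : ℕ} (h : l.toFinset.card = n) (hl : l.length = n) : l.Nodup := by
  have h1 : (l : Multiset Ω).Nodup := by
    rw [← Multiset.toFinset_card_eq_card_iff_nodup]
    have : (l : Multiset Ω).toFinset = l.toFinset := rfl
    rw [this, h, Multiset.coe_card, hl]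
  exact Multiset.coe_nodup.1 h1

theorem Tri.nodup (T : Tri p f s a b c d g h) : [a, p a, c, p c, g, p g].Nodup := by
  apply card_lt (n := 6)
  · rw [← T.card]
    congr 1
    ext z
    simp
  · rfl

theorem Tri.ac (T : Tri p f s a b c d g h) : c ≠ a ∧ c ≠ p a ∧ p c ≠ a ∧ p c ≠ p a := by
  have := T.nodup
  simp only [List.nodup_cons, List.mem_cons, List.not_mem_nil, or_false, not_or, List.nodup_nil, and_true] at this
  obtain ⟨⟨h1, h2, h3, h4, h5⟩, ⟨h6, h7, h8, h9⟩, _⟩ := this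
  exact ⟨Ne.symm h2, Ne.symm h6, Ne.symm h3, Ne.symm h7⟩

theorem Tri.sw12 (T : Tri p f s a b c d g h) : Tri p f s c d a b g h :=
  ⟨T.gp, T.d2, T.c2, T.c1, T.c3, fun z => by rw [T.cd]; (first | grind | tauto)⟩

theorem Tri.sw23 (T : Tri p f s a b c d g h) : Tri p f s a b g h c d :=
  ⟨T.gp, T.d2, T.c1, T.c3, T.c2, fun z => by rw [T.cd]; (first | grind | tauto)⟩

theorem Tri.sw13 (T : Tri p f s a b c d g h) : Tri p f s g h c d a b :=
  ⟨T.gp, T.d2, T.c3, T.c2, T.c1, fun z => by rw [T.cd]; (first | grind | tauto)⟩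

theorem Tri.fl1 (T : Tri p f s a b c d g h) : Tri p f s (p a) (NA.mu p s b) c d g h :=
  ⟨T.gp, T.d2, T.c1.flip T.wf, T.c2, T.c3, fun z => by rw [T.cd, T.wf.inv]; (first | grind | tauto)⟩

theorem Tri.fl2 (T : Tri p f s a b c d g h) : Tri p f s a b (p c) (NA.mu p s d) g h := T.sw12.fl1.sw12

theorem Tri.fl3 (T : Tri p f s a b c d g h) : Tri p f s a b c d (p g) (NA.mu p s h) := T.sw13.fl1.sw13

theorem Tri.ag (T : Tri p f s a b c d g h) : g ≠ a ∧ g ≠ p a ∧ p g ≠ a ∧ p g ≠ p a := T.sw23.ac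

theorem Tri.cg (T : Tri p f s a b c d g h) : g ≠ c ∧ g ≠ p c ∧ p g ≠ c ∧ p g ≠ p c := T.sw12.ag

theorem Tri.md (T : Tri p f s a b c d g h) (z : Ω) :
    MD p s z ↔ z = b ∨ z = NA.mu p s b ∨ z = d ∨ z = NA.mu p s d ∨ z = h ∨ z = NA.mu p s h := by
  have hw := T.wf
  rw [md_iff hw, T.cd]
  have key : ∀ {u v : Ω}, Cp p s u v → (NA.sc s z = u ↔ z = NA.mu p s v) ∧ (NA.sc s z = p u ↔ z = v) := by
    intro u v hc
    constructor
    · have h1 := (hc.flip hw).2
      rw [hw.inv] at h1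
      rw [← h1]
      constructor
      · intro h2
        rw [← h2, NA.pd_sc]
      · intro h2
        rw [h2, NA.sc_pd]
    · rw [← hc.2]
      constructor
      · intro h2
        rw [← h2, NA.pd_sc]
      · intro h2
        rw [h2, NA.sc_pd]
  rw [(key T.c1).1, (key T.c1).2, (key T.c2).1, (key T.c2).2, (key T.c3).1, (key T.c3).2]
  (first | grind | tauto)

/-- a token with another coloured letter. -/
theorem Tri.cdC (T : Tri p f s a b c d g h) : Cd p s c := T.c2.1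
theorem Tri.cdA (T : Tri p f s a b c d g h) : Cd p s a := T.c1.1
theorem Tri.cdG (T : Tri p f s a b c d g h) : Cd p s g := T.c3.1

/-- the M-edges are different. -/
theorem Tri.bd (T : Tri p f s a b c d g h) : d ≠ b ∧ d ≠ NA.mu p s b ∧ NA.mu p s d ≠ b ∧ NA.mu p s d ≠ NA.mu p s b := by
  have hw := T.wf
  have inj : ∀ x y, NA.pd s x = NA.pd s y → x = y := fun x y h => (NA.sc s).symm.injective h
  have e1 := T.c1.2
  have e2 := T.c2.2
  have e3 := (T.c1.flip hw).2
  have e4 := (T.c2.flip hw).2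
  rw [hw.inv] at e3 e4
  obtain ⟨h1, h2, h3, h4⟩ := T.ac
  refine ⟨fun e => ?_, fun e => ?_, fun e => ?_, fun e => ?_⟩
  · rw [← e1, ← e2] at e; exact h4 (inj _ _ e)
  · rw [← e3, ← e2] at e; exact h3 (inj _ _ e)
  · rw [← e4, ← e1] at e; exact h2 (inj _ _ e)
  · rw [← e4, ← e3] at e; exact h1 (inj _ _ e)

/-- a walk of the first letter. -/
theorem Tri.walked {n : ℕ} {a' b' : Ω} (T : Tri p f s a b c d g h) (W : WR p f s a b n s' a' b') : Tri p f s' a' b' c d g h := by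
  have hw := T.wf
  obtain ⟨h1, h2, h3, h4⟩ := T.ac
  obtain ⟨k1, k2, k3, k4⟩ := T.ag
  refine ⟨W.gp, W.d2.trans T.d2, W.cp, ?_, ?_, ?_⟩
  · refine ⟨(W.cd c).2 (Or.inl ⟨T.c2.1, h1, h2⟩), ?_⟩
    rw [(W.ot (p c) (T.c2.1.pr hw) h3 h4).1]
    exact T.c2.2
  · refine ⟨(W.cd g).2 (Or.inl ⟨T.c3.1, k1, k2⟩), ?_⟩
    rw [(W.ot (p g) (T.c3.1.pr hw) k3 k4).1]
    exact T.c3.2
  · intro z
    rw [W.cd, T.cd]
    constructor
    · rintro (⟨h5 | h5 | h5 | h5 | h5 | h5, h6, h7⟩ | h5 | h5)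
      · exact absurd h5 h6
      · exact absurd h5 h7
      all_goals (first | grind | tauto)
    · rintro (h5 | h5 | h5 | h5 | h5 | h5)
      · (first | grind | tauto)
      · (first | grind | tauto)
      · subst h5; left; exact ⟨by (first | grind | tauto), h1, h2⟩
      · subst h5; left; exact ⟨by (first | grind | tauto), h3, h4⟩
      · subst h5; left; exact ⟨by (first | grind | tauto), k1, k2⟩
      · subst h5; left; exact ⟨by (first | grind | tauto), k3, k4⟩

/-- sides of the other letters do not change. -/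
theorem Tri.sideC {n : ℕ} {a' b' : Ω} (T : Tri p f s a b c d g h) (W : WR p f s a b n s' a' b') : c ∈ s'.1 ↔ c ∈ s.1 :=
  (W.ot c T.c2.1 T.ac.1 T.ac.2.1).2

end

end D3
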